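import Pool.Agent.Helper897.NHM.Defs
open MeasureTheory Filter Topology Set Metric
open scoped ENNReal NNReal RealInnerProductSpace

/-!
Statements of the steps of part C (multiplicity bound) for MP_fecf7d_an.
-/

namespace Pool.Agent.Helper897.NHM

open Pool.Agent.Helper533
open Pool.Agent.Helper80.NHM (Normal IsOpenMapOn IsLightOn LocFin EnergyInput)

/-- basic topology of the components `U G f z s x` -/
structure TopA {n : ℕ} (G : Set (Sp n)) (f : Sp n → Sp n) : Prop where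
  isOpen : ∀ z s x, IsOpen (U G f z s x)
  sub : ∀ z s x, U G f z s x ⊆ G ∩ f ⁻¹' ball z s
  mem : ∀ z s, ∀ x ∈ G, dist (f x) z < s → x ∈ U G f z s x
  preconn : ∀ z s x, IsPreconnected (U G f z s x)
  mono : ∀ z s x z' s', ∀ x' ∈ U G f z s x, ball z' s' ⊆ ball z s →
    U G f z' s' x' ⊆ U G f z s x
  eq : ∀ z s x, ∀ x' ∈ U G f z s x, U G f z s x' = U G f z s x
  clos : ∀ z s x, closure (U G f z s x) ⊆ G → ∀ w ∈ closure (U G f z s x), dist (f w) z ≤ s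
  front : ∀ z s x, closure (U G f z s x) ⊆ G → ∀ w ∈ frontier (U G f z s x), dist (f w) z = s

/-- a component with compact closure in `G` is mapped onto the ball -/
def TopOnto (n : ℕ) : Prop :=
  ∀ (G : Set (Sp n)) (f : Sp n → Sp n), IsOpen G → ContinuousOn f G → IsOpenMapOn G f →
    TopA G f → ∀ z s x, IsCompact (closure (U G f z s x)) → closure (U G f z s x) ⊆ G →
    x ∈ G → dist (f x) z < s → f '' U G f z s x = ball z s

/-- the components around a point shrink to the point -/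
def TopSmall (n : ℕ) : Prop :=
  ∀ (G : Set (Sp n)) (f : Sp n → Sp n), IsOpen G → ContinuousOn f G → IsLightOn G f →
    TopA G f → ∀ x ∈ G, ∀ ε : ℝ, 0 < ε → ∃ s0 : ℝ, 0 < s0 ∧ ∀ s : ℝ, s ≤ s0 →
      closure (U G f (f x) s x) ⊆ ball x ε

/-- Loewner type lower bound for the energy of a function separating a continuum from the
exterior of a ball -/
def Loewner (n : ℕ) : Prop :=
  ∀ τ : ℝ, 0 < τ → ∃ c : ℝ, 0 < c ∧
    ∀ (x : Sp n) (D : ℝ) (φ : Sp n → ℝ) (Φ : Sp n → Sp n), 0 < D → Continuous φ →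
      Polar.H0 (n : ℝ) volume univ φ Φ → (∀ w, D < dist w x → φ w = 0) →
      ∀ E : Set (Sp n), IsPreconnected E → (∀ w ∈ E, 1 ≤ φ w) → ∀ e ∈ E, ∀ e' ∈ E,
        τ * D ≤ dist e e' → c ≤ ∫ w, ‖Φ w‖ ^ (n : ℝ)

/-- truncations are in `H0` -/
def TrH0 (n : ℕ) : Prop :=
  ∀ (D W : Set (Sp n)) (v : Sp n → ℝ) (V : Sp n → Sp n) (b' b c : ℝ), IsOpen D → IsOpen W →
    ContinuousOn v D → Polar.LH (n : ℝ) volume D v V → IsCompact (closure W) → closure W ⊆ D →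
    (∀ x ∈ frontier W, v x ≤ b') → b' < b → b < c →
    Continuous (tr W v b c) ∧ Polar.H0 (n : ℝ) volume W (tr W v b c) (trG W v V b c) ∧
      ∃ K : Set (Sp n), IsCompact K ∧ K ⊆ W ∧
        ∀ x, x ∉ K → tr W v b c x = 0 ∧ trG W v V b c x = 0

/-- zero flux against functions vanishing above a level -/
def FluxZero (n : ℕ) : Prop :=
  ∀ (α β : ℝ) (A : Sp n → Sp n → Sp n), 0 < α → α ≤ β → Polar.Op (n : ℝ) α β volume A →
    ∀ (D : Set (Sp n)) (v : Sp n → ℝ) (V : Sp n → Sp n) (M c : ℝ), IsOpen D → ContinuousOn v D →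
      Polar.LH (n : ℝ) volume D v V →
      (∀ φ, Polar.Cc (D ∩ {x | v x < M}) φ → ∫ x, ⟪A x (V x), gradient φ x⟫ = 0) → c < M →
      ∀ (ζ : Sp n → ℝ) (Z : Sp n → Sp n) (K : Set (Sp n)), IsCompact K → K ⊆ D →
        Polar.H0 (n : ℝ) volume univ ζ Z → (∀ x, x ∉ K → ζ x = 0 ∧ Z x = 0) →
        (∀ x ∈ K, c < v x → ζ x = 0 ∧ Z x = 0) →
        Integrable (fun x => ⟪A x (V x), Z x⟫) ∧ ∫ x, ⟪A x (V x), Z x⟫ = 0

/-- energy of a slice of a solution against the energy of a separating function -/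
def KeyAbs (n : ℕ) : Prop :=
  ∀ (α β : ℝ) (A : Sp n → Sp n → Sp n), 0 < α → α ≤ β → Polar.Op (n : ℝ) α β volume A →
    ∀ (D W : Set (Sp n)) (v : Sp n → ℝ) (V : Sp n → Sp n) (M b' b c b2 c2 : ℝ), IsOpen D →
      IsOpen W → ContinuousOn v D → Polar.LH (n : ℝ) volume D v V →
      (∀ φ, Polar.Cc (D ∩ {x | v x < M}) φ → ∫ x, ⟪A x (V x), gradient φ x⟫ = 0) →
      IsCompact (closure W) → closure W ⊆ D → (∀ x ∈ frontier W, v x ≤ b') →
      b' < b → b < c → c < M → b' < b2 → b2 < c2 → c2 < M →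
      ∀ (ζ : Sp n → ℝ) (Z : Sp n → Sp n) (K : Set (Sp n)), IsCompact K → K ⊆ W →
        Polar.H0 (n : ℝ) volume univ ζ Z → (∀ x, x ∉ K → ζ x = 0 ∧ Z x = 0) →
        (∀ x ∈ W, c < v x → ζ x = 1 ∧ Z x = 0) → (∀ x, Z x ≠ 0 → b < v x ∧ v x ≤ c) →
        ∫ x, ‖trG W v V b2 c2 x‖ ^ (n : ℝ) ≤
          (c2 - b2) * β ^ n * (c - b) ^ (n - 1) / α ^ n * ∫ x, ‖Z x‖ ^ (n : ℝ)

/-- existence of ring potentials -/
def ExistsRing (n : ℕ) : Prop :=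
  ∀ (C1 L0 : ℝ) (Ast : Sp n → Sp n → Sp n) (G : Set (Sp n)) (f : Sp n → Sp n) (y0 : Sp n)
    (s : ℝ), 4 ≤ L0 → PotInput C1 L0 Ast G f y0 s → ∀ z ∈ closedBall y0 (s / 4), ∀ r : ℝ,
    0 < r → r ≤ s / (8 * L0) → ∃ ω M V b, RingPot C1 L0 Ast G f y0 s z r ω M V b

/-- the constant `Λ` -/
noncomputable def Lam (L0 : ℝ) : ℝ := L0 ^ 2 + 2 * L0 + 2

/-- KEY: the energy at a small ring is bounded by the energy at a large ring around it -/
def Key (n : ℕ) : Prop :=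
  ∀ (α β C1 L0 : ℝ), 0 < α → α ≤ β → 4 ≤ L0 → ∃ C : ℝ, 0 < C ∧
    ∀ (Ast : Sp n → Sp n → Sp n), Polar.Op (n : ℝ) α β volume Ast →
    ∀ (G : Set (Sp n)) (f : Sp n → Sp n) (y0 : Sp n) (s : ℝ), IsOpen G → ContinuousOn f G →
    ∀ (y : Sp n) (R : ℝ) (ω₁ : Sp n → ℝ) (M₁ : ℝ) (V₁ : Sp n → Sp n) (b₁ : ℝ),
      RingPot C1 L0 Ast G f y0 s y R ω₁ M₁ V₁ b₁ →
    ∀ (z : Sp n) (r : ℝ) (ω₂ : Sp n → ℝ) (M₂ : ℝ) (V₂ : Sp n → Sp n) (b₂ : ℝ),
      RingPot C1 L0 Ast G f y0 s z r ω₂ M₂ V₂ b₂ →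
    ∀ W : Set (Sp n), IsOpen W → IsCompact (closure W) → closure W ⊆ G ∩ f ⁻¹' ball y0 s →
      (∀ x ∈ frontier W, Lam L0 * R ≤ dist (f x) y) → dist z y + L0 * r ≤ R / 2 →
      Lam L0 * R ≤ s / 4 →
      En W (fun x => ω₂ (f x)) V₂ b₂ ≤ C * En W (fun x => ω₁ (f x)) V₁ b₁

/-- SHRINK: small energy forces the inner component to be relatively small -/
def Shrink (n : ℕ) : Prop :=
  ∀ τ : ℝ, 0 < τ → ∃ c : ℝ, 0 < c ∧
    ∀ (C1 L0 : ℝ) (Ast : Sp n → Sp n → Sp n) (G : Set (Sp n)) (f : Sp n → Sp n) (y0 : Sp n)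
      (s : ℝ), 4 ≤ L0 → IsOpen G → ContinuousOn f G →
    ∀ (z : Sp n) (r : ℝ) (ω : Sp n → ℝ) (M : ℝ) (V : Sp n → Sp n) (b : ℝ),
      RingPot C1 L0 Ast G f y0 s z r ω M V b →
    ∀ (x : Sp n) (D : ℝ), x ∈ G → dist (f x) z < r → 0 < D →
      IsCompact (closure (U G f z (L0 * r) x)) →
      closure (U G f z (L0 * r) x) ⊆ G ∩ f ⁻¹' ball y0 s →
      U G f z (L0 * r) x ⊆ closedBall x D →
      En (U G f z (L0 * r) x) (fun x => ω (f x)) V b < c →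
      U G f z r x ⊆ closedBall x (τ * D)

/-- LOW: universal lower bound of the energy of a component at its centre -/
def Low (n : ℕ) : Prop :=
  ∀ (α β C1 L0 : ℝ), 0 < α → α ≤ β → 4 ≤ L0 → ∃ ε : ℝ, 0 < ε ∧
    ∀ (Ast : Sp n → Sp n → Sp n), Polar.Op (n : ℝ) α β volume Ast →
    ∀ (G : Set (Sp n)) (f : Sp n → Sp n) (y0 : Sp n) (s : ℝ), IsOpen G → ContinuousOn f G →
      IsOpenMapOn G f → PotInput C1 L0 Ast G f y0 s →
    ∀ (x : Sp n) (R : ℝ) (ω : Sp n → ℝ) (M : ℝ) (V : Sp n → Sp n) (b : ℝ), x ∈ G →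
      RingPot C1 L0 Ast G f y0 s (f x) R ω M V b → dist (f x) y0 + R ≤ s / 4 →
      Lam L0 * R ≤ s / 4 → IsCompact (closure (U G f (f x) (Lam L0 * R) x)) →
      closure (U G f (f x) (Lam L0 * R) x) ⊆ G ∩ f ⁻¹' ball y0 s →
      ε ≤ En (U G f (f x) (Lam L0 * R) x) (fun x => ω (f x)) V b

/-- COUNT: multiplicity bound -/
def Count (n : ℕ) : Prop :=
  ∀ (α β C1 L0 : ℝ), 0 < α → α ≤ β → 4 ≤ L0 →
    ∀ (Ast : Sp n → Sp n → Sp n), Polar.Op (n : ℝ) α β volume Ast →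
    ∀ (G : Set (Sp n)) (f : Sp n → Sp n) (y0 : Sp n) (s : ℝ), IsOpen G → ContinuousOn f G →
      IsOpenMapOn G f → IsLightOn G f → PotInput C1 L0 Ast G f y0 s →
    ∀ (x0 : Sp n) (R : ℝ) (ω : Sp n → ℝ) (M : ℝ) (V : Sp n → Sp n) (b : ℝ),
      RingPot C1 L0 Ast G f y0 s y0 R ω M V b → Lam L0 * R ≤ s / 4 →
      IsCompact (closure (U G f y0 (Lam L0 * R) x0)) →
      closure (U G f y0 (Lam L0 * R) x0) ⊆ G ∩ f ⁻¹' ball y0 s →
      ∃ N : ℕ, ∀ z ∈ ball y0 (R / 8), (U G f y0 (Lam L0 * R) x0 ∩ f ⁻¹' {z}).encard ≤ N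

/-- potentials exist for every morphism (to be supplied with P1 and S1) -/
def PotExist (n : ℕ) : Prop :=
  ∀ (α β α' β' : ℝ) (Astar A : Sp n → Sp n → Sp n), Pool.Agent.Helper80.NHM.AOp n α β Astar →
    Pool.Agent.Helper80.NHM.AOp n α' β' A → ∀ (G : Set (Sp n)) (f : Sp n → Sp n), IsOpen G →
    Pool.Agent.Helper80.NHM.Morph Astar A G f →
    ∃ C1 L0 : ℝ, 4 ≤ L0 ∧ ∀ (y0 : Sp n) (s : ℝ), 0 < s → PotInput C1 L0 Astar G f y0 s

/-- `LH` functions have weak gradients (P0) -/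
def LHWeak (n : ℕ) : Prop :=
  ∀ (D : Set (Sp n)) (u : Sp n → ℝ) (H : Sp n → Sp n), IsOpen D →
    Polar.LH (n : ℝ) volume D u H → Pool.Agent.Helper80.NHM.IsWeakGrad D u H

end Pool.Agent.Helper897.NHM
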