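import Pool.Agent.Helper897.NHM.Stmts2
open MeasureTheory Filter Topology Set Metric
open scoped ENNReal NNReal RealInnerProductSpace

namespace Pool.Agent.Helper897.NHM

open Pool.Agent.Helper533
open Pool.Agent.Helper80.NHM (Normal IsOpenMapOn IsLightOn LocFin EnergyInput)

theorem count_ev (c d : ℝ) (hd : 0 < d) : ∀ᶠ r in 𝓝[>] (0:ℝ), c * r ≤ d := by
  have h1 : Tendsto (fun r : ℝ => c * r) (𝓝[>] (0:ℝ)) (𝓝 (c * 0)) :=
    ((continuous_const.mul continuous_id).tendsto 0).mono_left nhdsWithin_le_nhds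
  rw [mul_zero] at h1
  filter_upwards [h1.eventually_lt_const hd] with r hr using hr.le

theorem count {n : ℕ} (hn : 2 ≤ n) (hTop : AllTopA n) (hT : TopSmall n) (hR : ExistsRing n)
    (hK : Key n) (hL : Low n) (hS : EnSum n) (hI : EnInt n) : Count n := by
  intro α β C1 L0 hα hαβ hL0
  obtain ⟨ε, hε, hL⟩ := hL α β C1 L0 hα hαβ hL0
  obtain ⟨C, hC, hK⟩ := hK α β C1 L0 hα hαβ hL0
  intro Ast hA G f y0 s hG hf hopen hlight hPI x0 R ω M V b hring hΛR hcomp hsub
  have T := hTop G f hG hf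
  set W0 := U G f y0 (Lam L0 * R) x0 with hW0
  refine ⟨⌈C * En W0 (fun x => ω (f x)) V b / ε⌉₊, fun z hz => ?_⟩
  by_contra hcon
  push Not at hcon
  set N := ⌈C * En W0 (fun x => ω (f x)) V b / ε⌉₊ with hN
  -- positivity
  have hRpos := hring.rpos
  have hL0pos : 0 < L0 := by linarith
  have hRle := hring.rle
  have hs0 : R * (8 * L0) ≤ s := (le_div_iff₀ (by positivity)).1 hRle
  have hsR : 32 * R ≤ s := by nlinarith
  have hspos : 0 < s := by linarith
  have hΛ1 : 1 ≤ Lam L0 := by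
    unfold Lam
    nlinarith
  have hzR : dist z y0 < R / 8 := hz
  -- a finite subset with `N + 1` elements
  have hle : ((N + 1 : ℕ) : ℕ∞) ≤ (W0 ∩ f ⁻¹' {z}).encard := by
    have := Order.add_one_le_of_lt hcon
    exact_mod_cast this
  obtain ⟨S', hS'sub, hS'card⟩ := Set.exists_subset_encard_eq hle
  have hS'fin : S'.Finite := Set.finite_of_encard_eq_coe hS'card
  obtain ⟨S, rfl⟩ := hS'fin.exists_finset_coe
  have hScard : S.card = N + 1 := by
    rw [Set.encard_coe_eq_coe_finsetCard] at hS'card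
    exact_mod_cast hS'card
  have hSW : ∀ x ∈ S, x ∈ W0 := fun x hx => (hS'sub hx).1
  have hSz : ∀ x ∈ S, f x = z := fun x hx => (hS'sub hx).2
  have hSG : ∀ x ∈ S, x ∈ G := fun x hx => (T.sub _ _ _ (hSW x hx)).1
  -- separation
  obtain ⟨Us, hUs, hUd⟩ := S.finite_toSet.t2_separation
  have hsx : ∀ x ∈ S, ∃ s0 : ℝ, 0 < s0 ∧ ∀ s' : ℝ, s' ≤ s0 → closure (U G f z s' x) ⊆ Us x := by
    intro x hx
    obtain ⟨η, hη, hball⟩ := Metric.isOpen_iff.1 (hUs x).2 x (hUs x).1
    obtain ⟨s0, hs0, hs1⟩ := hT G f hG hf hlight T x (hSG x hx) η hη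
    refine ⟨s0, hs0, fun s' hs' => ?_⟩
    have := hs1 s' hs'
    rw [hSz x hx] at this
    exact this.trans hball
  choose! sx hsx0 hsx1 using hsx
  -- choice of `r`
  have hev1 : ∀ᶠ r in 𝓝[>] (0:ℝ), ∀ x ∈ S, Lam L0 * r ≤ sx x :=
    (Finset.eventually_all S).2 fun x hx => count_ev _ _ (hsx0 x hx)
  have hev2 := count_ev L0 (R / 4) (by positivity)
  have hev3 := count_ev (Lam L0) (R / 4) (by positivity)
  have hev4 := count_ev 1 (s / (8 * L0)) (by positivity)
  have hev5 := count_ev (Lam L0) (s / 8) (by positivity)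
  have hev6 := count_ev 1 (s / 8) (by positivity)
  have hev7 : ∀ᶠ r in 𝓝[>] (0:ℝ), r ∈ Ioi (0:ℝ) := self_mem_nhdsWithin
  obtain ⟨r, hr1, hr2, hr3, hr4, hr5, hr6, hr7⟩ :=
    (hev1.and (hev2.and (hev3.and (hev4.and (hev5.and (hev6.and hev7)))))).exists
  have hrpos : 0 < r := hr7
  rw [one_mul] at hr4 hr6
  obtain ⟨ω₂, M₂, V₂, b₂, hring2⟩ := hR C1 L0 Ast G f y0 s hL0 hPI z
    (by rw [mem_closedBall]; linarith) r hrpos hr4
  have hball : ball z (Lam L0 * r) ⊆ ball y0 (Lam L0 * R) := by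
    apply ball_subset_ball'
    nlinarith
  have hWsub : ∀ x ∈ S, U G f z (Lam L0 * r) x ⊆ W0 := fun x hx =>
    T.mono y0 (Lam L0 * R) x0 z (Lam L0 * r) x (hSW x hx) hball
  have hclsub : ∀ x ∈ S, closure (U G f z (Lam L0 * r) x) ⊆ closure W0 := fun x hx =>
    closure_mono (hWsub x hx)
  have hlow : ∀ x ∈ S, ε ≤ En (U G f z (Lam L0 * r) x) (fun x => ω₂ (f x)) V₂ b₂ := by
    intro x hx
    have hfx := hSz x hx
    have := hL Ast hA G f y0 s hG hf hopen hPI x r ω₂ M₂ V₂ b₂ (hSG x hx)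
      (by rw [hfx]; exact hring2) (by rw [hfx]; linarith) (by linarith)
      (by
        rw [hfx]
        exact hcomp.of_isClosed_subset isClosed_closure (hclsub x hx))
      (by
        rw [hfx]
        exact (hclsub x hx).trans hsub)
    rw [hfx] at this
    exact this
  have hclG : closure W0 ⊆ G := fun w hw => (hsub hw).1
  have hfront : ∀ x ∈ frontier W0, dist (f x) y0 = Lam L0 * R :=
    T.front y0 (Lam L0 * R) x0 hclG
  have hint := hI C1 L0 Ast G f y0 s z r ω₂ M₂ V₂ b₂ hG hf hring2 W0 (T.isOpen _ _ _) hcomp hsub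
    (by
      intro x hx
      have h1 := hfront x hx
      have h2 : dist (f x) y0 ≤ dist (f x) z + dist z y0 := dist_triangle _ _ _
      nlinarith)
  have hsum := hS S W0 (fun x => U G f z (Lam L0 * r) x) (fun x => ω₂ (f x)) V₂ b₂
    (fun x _ => (T.isOpen _ _ _).measurableSet) hWsub
    (by
      intro x hx y hy hxy
      have hd := hUd hx hy hxy
      exact hd.mono (subset_closure.trans (hsx1 x hx _ (hr1 x hx)))
        (subset_closure.trans (hsx1 y hy _ (hr1 y hy)))) hint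
  have hkey := hK Ast hA G f y0 s hG hf y0 R ω M V b hring z r ω₂ M₂ V₂ b₂ hring2 W0
    (T.isOpen _ _ _) hcomp hsub (fun x hx => (hfront x hx).ge) (by linarith) hΛR
  have hcard : S.card • ε ≤ ∑ i ∈ S, En (U G f z (Lam L0 * r) i) (fun x => ω₂ (f x)) V₂ b₂ :=
    Finset.card_nsmul_le_sum S _ ε hlow
  rw [hScard, nsmul_eq_mul] at hcard
  have h1 : ((N + 1 : ℕ) : ℝ) * ε ≤ C * En W0 (fun x => ω (f x)) V b :=
    hcard.trans (hsum.trans hkey)
  have h2 : ((N + 1 : ℕ) : ℝ) ≤ C * En W0 (fun x => ω (f x)) V b / ε := by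
    rw [le_div_iff₀ hε]
    exact h1
  have h3 : C * En W0 (fun x => ω (f x)) V b / ε ≤ (N : ℝ) := Nat.le_ceil _
  push_cast at h2
  linarith

end Pool.Agent.Helper897.NHM
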