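import Pool.Agent.Helper897.NHM.Stmts
open MeasureTheory Filter Topology Set Metric
open scoped ENNReal NNReal RealInnerProductSpace

namespace Pool.Agent.Helper897.NHM

open Pool.Agent.Helper533
open Pool.Agent.Helper80.NHM (Normal IsOpenMapOn IsLightOn LocFin EnergyInput)

variable {n : ℕ}

theorem En_nonneg (W : Set (Sp n)) (v : Sp n → ℝ) (V : Sp n → Sp n) (b : ℝ) :
    0 ≤ En W v V b := by
  unfold En
  exact integral_nonneg fun x => Real.rpow_nonneg (norm_nonneg _) _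

theorem En_eq_setIntegral (hn : 2 ≤ n) (W W' : Set (Sp n)) (v : Sp n → ℝ) (V : Sp n → Sp n)
    (b : ℝ) (hm : MeasurableSet W') (hs : W' ⊆ W) :
    En W' v V b = ∫ x in W', ‖trG W v V (b + 1 / 4) (b + 3 / 4) x‖ ^ (n : ℝ) := by
  unfold En
  rw [← integral_indicator hm]
  congr 1
  funext x
  by_cases hx : x ∈ W'
  · rw [Set.indicator_of_mem hx]
    have hxW : x ∈ W := hs hx
    unfold trG
    by_cases hx2 : b + 1 / 4 < v x ∧ v x ≤ b + 3 / 4
    · rw [Set.indicator_of_mem (show x ∈ W' ∩ {x | b + 1 / 4 < v x ∧ v x ≤ b + 3 / 4} from ⟨hx, hx2⟩),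
        Set.indicator_of_mem (show x ∈ W ∩ {x | b + 1 / 4 < v x ∧ v x ≤ b + 3 / 4} from ⟨hxW, hx2⟩)]
    · rw [Set.indicator_of_notMem (fun h => hx2 h.2), Set.indicator_of_notMem (fun h => hx2 h.2)]
  · rw [Set.indicator_of_notMem hx]
    unfold trG
    rw [Set.indicator_of_notMem (fun h => hx h.1), norm_zero]
    apply Real.zero_rpow
    have : (2 : ℝ) ≤ n := by exact_mod_cast hn
    linarith

theorem En_sum (hn : 2 ≤ n) {ι : Type*} (S : Finset ι) (W : Set (Sp n)) (Wi : ι → Set (Sp n))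
    (v : Sp n → ℝ) (V : Sp n → Sp n) (b : ℝ) (hm : ∀ i ∈ S, MeasurableSet (Wi i))
    (hs : ∀ i ∈ S, Wi i ⊆ W) (hd : (S : Set ι).PairwiseDisjoint Wi)
    (hint : Integrable (fun x => ‖trG W v V (b + 1 / 4) (b + 3 / 4) x‖ ^ (n : ℝ))) :
    ∑ i ∈ S, En (Wi i) v V b ≤ En W v V b := by
  calc ∑ i ∈ S, En (Wi i) v V b
      = ∑ i ∈ S, ∫ x in Wi i, ‖trG W v V (b + 1 / 4) (b + 3 / 4) x‖ ^ (n : ℝ) :=
        Finset.sum_congr rfl fun i hi => En_eq_setIntegral hn W (Wi i) v V b (hm i hi) (hs i hi)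
    _ = ∫ x in ⋃ i ∈ S, Wi i, ‖trG W v V (b + 1 / 4) (b + 3 / 4) x‖ ^ (n : ℝ) :=
        (integral_biUnion_finset S hm hd (fun i _ => hint.integrableOn)).symm
    _ ≤ ∫ x, ‖trG W v V (b + 1 / 4) (b + 3 / 4) x‖ ^ (n : ℝ) :=
        setIntegral_le_integral hint (ae_of_all _ fun x => Real.rpow_nonneg (norm_nonneg _) _)
    _ = En W v V b := rfl

theorem En_mono (hn : 2 ≤ n) (W W' : Set (Sp n)) (v : Sp n → ℝ) (V : Sp n → Sp n) (b : ℝ)
    (hm : MeasurableSet W') (hs : W' ⊆ W)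
    (hint : Integrable (fun x => ‖trG W v V (b + 1 / 4) (b + 3 / 4) x‖ ^ (n : ℝ))) :
    En W' v V b ≤ En W v V b := by
  rw [En_eq_setIntegral hn W W' v V b hm hs]
  exact setIntegral_le_integral hint (ae_of_all _ fun x => Real.rpow_nonneg (norm_nonneg _) _)

/-- integrability of the ring energy density of a pulled back ring potential -/
theorem En_int (hn : 2 ≤ n) (hT : TrH0 n) {C1 L0 : ℝ} {Ast : Sp n → Sp n → Sp n}
    {G : Set (Sp n)} {f : Sp n → Sp n} {y0 : Sp n} {s : ℝ} {z : Sp n} {r : ℝ} {ω : Sp n → ℝ}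
    {M : ℝ} {V : Sp n → Sp n} {b : ℝ} (hG : IsOpen G) (hf : ContinuousOn f G)
    (hR : RingPot C1 L0 Ast G f y0 s z r ω M V b) {W : Set (Sp n)} (hW : IsOpen W)
    (hWc : IsCompact (closure W)) (hWG : closure W ⊆ G ∩ f ⁻¹' ball y0 s)
    (hfr : ∀ x ∈ frontier W, L0 * r ≤ dist (f x) z) :
    Integrable (fun x => ‖trG W (fun x => ω (f x)) V (b + 1 / 4) (b + 3 / 4) x‖ ^ (n : ℝ)) := by
  have hD : IsOpen (G ∩ f ⁻¹' ball y0 s) := hf.isOpen_inter_preimage hG isOpen_ball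
  have hc : ContinuousOn (fun x => ω (f x)) (G ∩ f ⁻¹' ball y0 s) :=
    hR.pot.cont.comp_continuousOn (hf.mono inter_subset_left)
  obtain ⟨-, hH, -⟩ := hT (G ∩ f ⁻¹' ball y0 s) W (fun x => ω (f x)) V b (b + 1 / 4) (b + 3 / 4)
    hD hW hc hR.pot.lh hWc hWG (fun x hx => hR.out (f x) (hfr x hx)) (by linarith) (by linarith)
  have hn2 : (2 : ℝ) ≤ n := by exact_mod_cast hn
  have h2 := hH.mU.integrable_norm_rpow (by simp; omega) ENNReal.ofReal_ne_top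
  rwa [ENNReal.toReal_ofReal (by linarith : (0 : ℝ) ≤ n)] at h2

end Pool.Agent.Helper897.NHM
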