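import Pool.Agent.Helper897.NHM.Stmts
open MeasureTheory Filter Topology Set Metric
open scoped ENNReal NNReal RealInnerProductSpace

namespace Pool.Agent.Helper897.NHM

open Pool.Agent.Helper533
open Pool.Agent.Helper80.NHM (Normal IsOpenMapOn IsLightOn LocFin EnergyInput)

theorem existsRing {n : ℕ} (hn : 2 ≤ n) : ExistsRing n := by
  intro C1 L0 Ast G f y0 s hL0 hP z hz r hr hrs
  have hL0' : 0 < L0 := by linarith
  have h8 : 8 * (L0 * r) ≤ s := by
    rw [le_div_iff₀ (by positivity)] at hrs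
    linarith
  have hLr : r ≤ L0 * r := by nlinarith
  have hrt : r / L0 ≤ r := by
    rw [div_le_iff₀ hL0']
    linarith
  have hspos : 0 < s := by nlinarith
  obtain ⟨ω, M, V, hS⟩ := hP z hz (r / L0) (by positivity) (hrt.trans hrs)
  set e : Sp n := EuclideanSpace.single ⟨0, by omega⟩ 1 with he
  have hen : ‖e‖ = 1 := by simp [he]
  have hdist : ∀ ρ : ℝ, 0 ≤ ρ → dist (z + ρ • e) z = ρ := by
    intro ρ hρ
    rw [dist_eq_norm, add_sub_cancel_left, norm_smul, hen, mul_one, Real.norm_of_nonneg hρ]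
  have hbdd : BddAbove (ω '' {w | L0 * r ≤ dist w z}) := by
    refine ⟨M, ?_⟩
    rintro _ ⟨w, -, rfl⟩
    exact hS.le w
  have hne : (ω '' {w | L0 * r ≤ dist w z}).Nonempty :=
    ⟨_, z + (L0 * r) • e, (hdist _ (by positivity)).ge, rfl⟩
  have hout : ∀ w, L0 * r ≤ dist w z → ω w ≤ sSup (ω '' {w | L0 * r ≤ dist w z}) :=
    fun w hw => le_csSup hbdd ⟨w, hw, rfl⟩
  have hinn : ∀ w, dist w z ≤ r → sSup (ω '' {w | L0 * r ≤ dist w z}) + 1 ≤ ω w := by
    intro w hw
    have : sSup (ω '' {w | L0 * r ≤ dist w z}) ≤ ω w - 1 := by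
      refine csSup_le hne ?_
      rintro _ ⟨w', hw', rfl⟩
      have := hS.tp2 r hrt (by linarith) w w' hw hw'
      linarith
    linarith
  refine ⟨ω, M, V, sSup (ω '' {w | L0 * r ≤ dist w z}), ⟨hr, hrs, hS, ?_, hinn, hout, ?_⟩⟩
  · exact (hS.nonneg _).trans (hout (z + (L0 * r) • e) (hdist _ (by positivity)).ge)
  · have h1 := hinn (z + r • e) (hdist r hr.le).le
    have e1 : L0 * (r / L0) = r := by field_simp
    have h2 := hS.tp2 (r / L0) le_rfl (by rw [e1]; linarith) z (z + r • e)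
      (by rw [dist_self]; positivity) (by rw [e1, hdist r hr.le])
    have h3 := hS.le z
    linarith

end Pool.Agent.Helper897.NHM
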