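import Pool.Agent.Helper897.NHM.Stmts
open MeasureTheory Filter Topology Set Metric
open scoped ENNReal NNReal RealInnerProductSpace

namespace Pool.Agent.Helper897.NHM

open Pool.Agent.Helper533
open Pool.Agent.Helper80.NHM (Normal IsOpenMapOn IsLightOn LocFin EnergyInput)

theorem fluxZero {n : ℕ} (hn : 2 ≤ n) : FluxZero n := by
  intro α β A hα hαβ hA D v V M c hD hv hLH hzero hcM ζ Z K hK hKD hH0 hoff habove
  have hp : (1 : ℝ) < (n : ℝ) := by exact_mod_cast (by omega : 1 < n)
  have hp' : (1 : ℝ≥0∞) ≤ ENNReal.ofReal (n : ℝ) := by simpa using ENNReal.ofReal_le_ofReal hp.le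
  have hK'c : IsCompact (K ∩ {x | v x ≤ c}) := by
    refine hK.of_isClosed_subset ?_ inter_subset_left
    exact (hv.mono hKD).preimage_isClosed_of_isClosed hK.isClosed isClosed_Iic
  have hD' : IsOpen (D ∩ {x | v x < M}) := hv.isOpen_inter_preimage hD isOpen_Iio
  have hK'D' : K ∩ {x | v x ≤ c} ⊆ D ∩ {x | v x < M} := by
    rintro x ⟨h1, h2⟩
    exact ⟨hKD h1, lt_of_le_of_lt h2 hcM⟩
  have hoff' : ∀ x, x ∉ K ∩ {x | v x ≤ c} → ζ x = 0 ∧ Z x = 0 := by
    intro x hx
    by_cases h1 : x ∈ K
    · refine habove x h1 ?_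
      by_contra h2
      exact hx ⟨h1, not_lt.1 h2⟩
    · exact hoff x h1
  have H : Polar.H0 (n : ℝ) volume (D ∩ {x | v x < M}) ζ Z :=
    Polar.LH.toH0 (Polar.H0.toLH hp hH0) hD' hK'c hK'D'
      (Eventually.of_forall fun x hx => (hoff' x hx).1)
      (Eventually.of_forall fun x hx => (hoff' x hx).2)
  obtain ⟨η, hη, hη01, W, hW, hKW, hWG, hηW⟩ := Polar.exists_cutoff hK'c hD' hK'D'
  obtain ⟨φ, hφ, hφ1, hφ2, -, -⟩ := H.seq hp.le
  obtain ⟨B, hB⟩ := hη.comp_grad.exists_bound_of_continuous hη.cont_grad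
  have hψ : ∀ j, Polar.Cc (D ∩ {x | v x < M}) (fun x => η x * φ j x) :=
    fun j => hη.mul_smooth (hφ j).smooth
  have hgrad : ∀ j x, gradient (fun x => η x * φ j x) x =
      η x • gradient (φ j) x + φ j x • gradient η x :=
    fun j x => Polar.grad_mul (hη.diff x) ((hφ j).diff x)
  have hK''D : tsupport η ⊆ D := hη.supp.trans inter_subset_left
  have hηK : ∀ x ∈ K ∩ {x | v x ≤ c}, x ∈ tsupport η := by
    intro x hx
    apply subset_tsupport
    rw [Function.mem_support, hηW x (hKW hx)]
    exact one_ne_zero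
  have hZoff : ∀ᵐ x ∂(volume : Measure (Sp n)), x ∉ tsupport η → Z x = 0 :=
    Eventually.of_forall fun x hx => (hoff' x (fun h => hx (hηK x h))).2
  have hψoff : ∀ j, ∀ᵐ x ∂(volume : Measure (Sp n)), x ∉ tsupport η →
      gradient (fun x => η x * φ j x) x = 0 := by
    intro j
    refine Eventually.of_forall fun x hx => ?_
    rw [hgrad, Polar.zero_of_notMem hx, Polar.grad_zero_of_notMem hx, zero_smul, smul_zero,
      add_zero]
  -- measurability
  have mζ : AEStronglyMeasurable ζ volume := H.mu.1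
  have mZ : AEStronglyMeasurable Z volume := H.mU.1
  have mη : AEStronglyMeasurable η volume := hη.cont.aestronglyMeasurable
  have mφ : ∀ j, AEStronglyMeasurable (φ j) volume := fun j => (hφ j).cont.aestronglyMeasurable
  have mgφ : ∀ j, AEStronglyMeasurable (gradient (φ j)) volume :=
    fun j => (hφ j).cont_grad.aestronglyMeasurable
  have hlim : Tendsto (fun j => eLpNorm (fun x => Z x - gradient (fun x => η x * φ j x) x)
      (ENNReal.ofReal (n : ℝ)) volume) atTop (𝓝 0) := by
    have t3 : Tendsto (fun j => ENNReal.ofReal B *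
        eLpNorm (fun x => ζ x - φ j x) (ENNReal.ofReal (n : ℝ)) volume) atTop (𝓝 0) := by
      have := ENNReal.Tendsto.const_mul (a := ENNReal.ofReal B) hφ1
        (Or.inr ENNReal.ofReal_ne_top)
      rwa [mul_zero] at this
    have t := hφ2.add t3
    rw [add_zero] at t
    refine tendsto_of_tendsto_of_tendsto_of_le_of_le tendsto_const_nhds t (fun _ => zero_le) ?_
    intro j
    have e1 : (fun x => Z x - gradient (fun x => η x * φ j x) x) =
        (fun x => η x • (Z x - gradient (φ j) x)) + (fun x => (ζ x - φ j x) • gradient η x) := by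
      funext x
      have key : Z x = η x • Z x + ζ x • gradient η x := by
        by_cases hx : x ∈ K ∩ {x | v x ≤ c}
        · rw [hηW x (hKW hx), Polar.grad_zero_of_const_on hW hηW (hKW hx), one_smul, smul_zero,
            add_zero]
        · rw [(hoff' x hx).1, (hoff' x hx).2]
          simp
      rw [hgrad]
      simp only [Pi.add_apply]
      conv_lhs => rw [key]
      rw [smul_sub, sub_smul]
      abel
    beta_reduce
    rw [e1]
    have hA2 : AEStronglyMeasurable (fun x => η x • (Z x - gradient (φ j) x)) volume :=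
      mη.smul (mZ.sub (mgφ j))
    have hA3 : AEStronglyMeasurable (fun x => (ζ x - φ j x) • gradient η x) volume :=
      (mζ.sub (mφ j)).smul hη.cont_grad.aestronglyMeasurable
    refine (eLpNorm_add_le hA2 hA3 hp').trans ?_
    refine add_le_add ?_ ?_
    · apply eLpNorm_mono
      intro x
      rw [norm_smul, Real.norm_eq_abs]
      have h2 : |η x| ≤ 1 := by
        rw [abs_le]
        constructor <;> linarith [(hη01 x).1, (hη01 x).2]
      calc |η x| * ‖Z x - gradient (φ j) x‖
          ≤ 1 * ‖Z x - gradient (φ j) x‖ := by gcongr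
        _ = ‖Z x - gradient (φ j) x‖ := by ring
    · apply eLpNorm_le_mul_eLpNorm_of_ae_le_mul
      filter_upwards with x
      rw [norm_smul, mul_comm]
      exact mul_le_mul_of_nonneg_right (hB x) (norm_nonneg _)
  refine ⟨Polar.integrable_flux hp hA hLH hD hη.comp hK''D H.mU hZoff, ?_⟩
  have ht := Polar.tendsto_flux hp hA hLH hD hη.comp hK''D H.mU hZoff
    (Fj := fun j => gradient (fun x => η x * φ j x)) (fun j => (hψ j).memLp_grad _) hψoff hlim
  refine tendsto_nhds_unique ht ?_
  refine tendsto_const_nhds.congr fun j => ?_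
  exact (hzero _ (hψ j)).symm

end Pool.Agent.Helper897.NHM
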