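import Pool.Agent.Helper897.NHM.Stmts
open MeasureTheory Filter Topology Set Metric
open scoped ENNReal NNReal RealInnerProductSpace

namespace Pool.Agent.Helper897.NHM

open Pool.Agent.Helper533
open Pool.Agent.Helper80.NHM (Normal IsOpenMapOn IsLightOn LocFin EnergyInput)

theorem key_exists_dist {n : ℕ} (hn : 2 ≤ n) (z : Sp n) {t : ℝ} (ht : 0 ≤ t) :
    ∃ w : Sp n, dist w z = t := by
  refine ⟨z + t • (EuclideanSpace.single (⟨0, by omega⟩ : Fin n) (1 : ℝ)), ?_⟩
  rw [dist_eq_norm, add_sub_cancel_left, norm_smul, EuclideanSpace.norm_single, norm_one, mul_one,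
    Real.norm_eq_abs, abs_of_nonneg ht]

/-- iteration of the doubling property -/
theorem key_iter {n : ℕ} (hn : 2 ≤ n) {z : Sp n} {ω : Sp n → ℝ} {C1 t ρ : ℝ} (hρ : 0 < ρ)
    (htρ : t ≤ ρ)
    (h : ∀ R, t ≤ R → ∀ w w', R ≤ dist w z → dist w' z ≤ 2 * R → ω w ≤ ω w' + C1) (j : ℕ) :
    ∀ w w' : Sp n, ρ ≤ dist w z → dist w' z ≤ 2 ^ (j + 1) * ρ →
      ω w ≤ ω w' + ((j : ℝ) + 1) * (|C1| + 1) := by
  have hC : C1 ≤ |C1| + 1 := by linarith [le_abs_self C1]
  induction j with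
  | zero =>
    intro w w' hw hw'
    have h1 := h ρ htρ w w' hw (by simpa using hw')
    push_cast
    linarith
  | succ j ih =>
    intro w w' hw hw'
    have hp1 : (1 : ℝ) ≤ 2 ^ (j + 1) := one_le_pow₀ (by norm_num)
    have hR : ρ ≤ 2 ^ (j + 1) * ρ := by nlinarith
    obtain ⟨w'', hw''⟩ := key_exists_dist hn z (t := 2 ^ (j + 1) * ρ) (by positivity)
    have h1 := ih w w'' hw hw''.le
    have h2 := h (2 ^ (j + 1) * ρ) (htρ.trans hR) w'' w' hw''.ge
      (by rw [← mul_assoc, ← pow_succ']; exact hw')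
    push_cast
    linarith

theorem key {n : ℕ} (hn : 2 ≤ n) (hT : TrH0 n) (hK : KeyAbs n) : Key n := by
  intro α β C1 L0 hα hαβ hL0
  have hβ : 0 < β := lt_of_lt_of_le hα hαβ
  have hLamdef : Lam L0 = L0 ^ 2 + 2 * L0 + 2 := rfl
  have hLam1 : 1 < Lam L0 := by rw [hLamdef]; nlinarith
  obtain ⟨k', hk'⟩ : ∃ k' : ℕ, 2 * Lam L0 + 1 ≤ 2 ^ (k' + 1) := by
    obtain ⟨k', hk'⟩ := pow_unbounded_of_one_lt (2 * Lam L0 + 1) (one_lt_two : (1 : ℝ) < 2)
    refine ⟨k', hk'.le.trans ?_⟩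
    exact pow_le_pow_right₀ one_le_two (Nat.le_succ _)
  set Q : ℝ := ((k' : ℝ) + 1) * (|C1| + 1) with hQ
  have hQ0 : 0 < Q := by positivity
  refine ⟨(1 / 2) * 2 ^ n * β ^ n * Q ^ (n - 1) / α ^ n, by positivity, ?_⟩
  intro Ast hop G f y0 s hG hf y R ω₁ M₁ V₁ b₁ h1 z r ω₂ M₂ V₂ b₂ h2 W hW hWc hWD hfr hzr hΛ
  have hR : 0 < R := h1.rpos
  have hr : 0 < r := h2.rpos
  have hL0' : 0 < L0 := by linarith
  have hdzy : 0 ≤ dist z y := dist_nonneg
  have hL0r : L0 * r ≤ R / 2 := by linarith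
  have hdzy2 : dist z y ≤ R / 2 := by
    have : 0 < L0 * r := by positivity
    linarith
  have hrR : r ≤ R / 8 := by nlinarith
  have hrt : r / L0 ≤ r := div_le_self hr.le (by linarith)
  have hRs : R / 2 ≤ s / 2 := by nlinarith
  -- distances
  have hd1 : ∀ w, dist w z ≤ dist w y + R / 2 := by
    intro w
    have := dist_triangle w y z
    rw [dist_comm y z] at this
    linarith
  have hd2 : ∀ w, dist w y ≤ dist w z + R / 2 := by
    intro w
    have := dist_triangle w z y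
    linarith
  -- the set S
  obtain ⟨ws, hws⟩ := key_exists_dist hn z (t := (Lam L0 + 1 / 2) * R) (by positivity)
  have hwsS : Lam L0 * R ≤ dist ws y := by
    have := hd1 ws
    rw [hws] at this
    linarith
  have hbdd : BddAbove (ω₂ '' {w | Lam L0 * R ≤ dist w y}) := by
    refine ⟨M₂, ?_⟩
    rintro _ ⟨w, _, rfl⟩
    exact h2.pot.le w
  have hne : (ω₂ '' {w | Lam L0 * R ≤ dist w y}).Nonempty := ⟨_, ws, hwsS, rfl⟩
  obtain ⟨b', hb'def⟩ : ∃ b', b' = sSup (ω₂ '' {w | Lam L0 * R ≤ dist w y}) := ⟨_, rfl⟩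
  have hb'ub : ∀ w, Lam L0 * R ≤ dist w y → ω₂ w ≤ b' := by
    intro w hw
    rw [hb'def]
    exact le_csSup hbdd ⟨w, hw, rfl⟩
  have hb'le : ∀ m : ℝ, (∀ w, Lam L0 * R ≤ dist w y → ω₂ w ≤ m) → b' ≤ m := by
    intro m hm
    rw [hb'def]
    refine csSup_le hne ?_
    rintro _ ⟨w, hw, rfl⟩
    exact hm w hw
  -- (a)
  have ha : ∀ w, dist w y ≤ L0 * R → b' + 1 ≤ ω₂ w := by
    intro w hw
    have h3 : b' ≤ ω₂ w - 1 := by
      refine hb'le _ fun w' hw' => ?_
      have h4 := h2.pot.tp2 ((L0 + 1) * R) (by nlinarith)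
        (by
          have : L0 * ((L0 + 1) * R) ≤ Lam L0 * R := by
            rw [hLamdef]
            nlinarith [mul_pos hL0' hR]
          nlinarith) w w'
        (by have := hd1 w; nlinarith)
        (by
          have h5 := hd2 w'
          have : L0 * ((L0 + 1) * R) + R / 2 ≤ Lam L0 * R := by
            rw [hLamdef]
            nlinarith [mul_pos hL0' hR]
          linarith)
      linarith
    linarith
  -- (b)
  have hb : ∀ w, R ≤ dist w y → ω₂ w ≤ b' + Q := by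
    intro w hw
    have h3 := key_iter hn (ρ := R / 2) (by positivity) (t := r / L0) (by linarith) h2.pot.tp3 k' w ws
      (by have := hd2 w; linarith)
      (by rw [hws]; nlinarith)
    have h4 := hb'ub ws hwsS
    linarith
  -- (c)
  have hc : ∀ w, R ≤ dist w y → ω₂ w ≤ M₂ - 1 := by
    intro w hw
    have h5 : L0 * (R / (2 * L0)) = R / 2 := by field_simp
    have h3 := h2.pot.tp2 (R / (2 * L0))
      (by
        rw [div_le_div_iff₀ hL0' (by positivity)]
        nlinarith)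
      (by rw [h5]; exact hRs) z w
      (by rw [dist_self]; positivity)
      (by rw [h5]; have := hd2 w; linarith)
    have h4 := h2.pot.le z
    linarith
  set b : ℝ := b' + 1 / 2 with hbdef
  set c : ℝ := min (b' + Q) (M₂ - 1) with hcdef
  have hcle : ∀ w, R ≤ dist w y → ω₂ w ≤ c := fun w hw => le_min (hb w hw) (hc w hw)
  have hbc : b < c := by
    obtain ⟨w, hw⟩ := key_exists_dist hn y hR.le
    have h3 := ha w (by rw [hw]; nlinarith)
    have h4 := hcle w hw.ge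
    linarith
  have hcM : c < M₂ := lt_of_le_of_lt (min_le_right _ _) (by linarith)
  have hcb : c - b ≤ Q := by
    have : c ≤ b' + Q := min_le_left _ _
    linarith
  have hb'b₂ : b' ≤ b₂ := by
    refine hb'le _ fun w hw => h2.out w ?_
    have h3 := hd2 w
    have h4 : 1 * R ≤ Lam L0 * R := mul_le_mul_of_nonneg_right hLam1.le hR.le
    linarith
  -- the domain
  have hD : IsOpen (G ∩ f ⁻¹' ball y0 s) := hf.isOpen_inter_preimage hG isOpen_ball
  have hc1 : ContinuousOn (fun x => ω₁ (f x)) (G ∩ f ⁻¹' ball y0 s) :=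
    h1.pot.cont.comp_continuousOn (hf.mono inter_subset_left)
  have hc2 : ContinuousOn (fun x => ω₂ (f x)) (G ∩ f ⁻¹' ball y0 s) :=
    h2.pot.cont.comp_continuousOn (hf.mono inter_subset_left)
  have hL0Lam : L0 * R ≤ Lam L0 * R := by
    refine mul_le_mul_of_nonneg_right ?_ hR.le
    rw [hLamdef]; nlinarith
  obtain ⟨_, hH, K, hKc, hKW, hK0⟩ := hT (G ∩ f ⁻¹' ball y0 s) W (fun x => ω₁ (f x)) V₁ b₁
    (b₁ + 1 / 4) (b₁ + 3 / 4) hD hW hc1 h1.pot.lh hWc hWD
    (fun x hx => h1.out _ (hL0Lam.trans (hfr x hx))) (by linarith) (by linarith)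
  have hHu := Polar.H0.const_mul 2 (Polar.H0.mono hH (subset_univ W))
  have hmain := hK α β Ast hα hαβ hop (G ∩ f ⁻¹' ball y0 s) W (fun x => ω₂ (f x)) V₂ M₂ b' b c
    (b₂ + 1 / 4) (b₂ + 3 / 4) hD hW hc2 h2.pot.lh h2.pot.harm hWc hWD
    (fun x hx => hb'ub _ (hfr x hx)) (by linarith) hbc hcM (by linarith) (by linarith)
    (by linarith [h2.bM]) _ _ K hKc hKW hHu
    (fun x hx => by
      have h3 := hK0 x hx
      rw [h3.1, h3.2]
      simp)
    (fun x hx hcx => by
      have h3 : dist (f x) y < R := by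
        by_contra hcon
        exact absurd (hcle _ (not_lt.mp hcon)) (not_le.mpr hcx)
      have h4 := h1.inn _ h3.le
      constructor
      · have h5 : tr W (fun x => ω₁ (f x)) (b₁ + 1 / 4) (b₁ + 3 / 4) x = 1 / 2 := by
          unfold tr
          rw [Set.indicator_of_mem hx, max_eq_left (by linarith), min_eq_right (by linarith)]
          ring
        rw [h5]
        norm_num
      · have h5 : trG W (fun x => ω₁ (f x)) V₁ (b₁ + 1 / 4) (b₁ + 3 / 4) x = 0 := by
          unfold trG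
          refine Set.indicator_of_notMem ?_ _
          rintro ⟨_, _, h6⟩
          linarith
        rw [h5, smul_zero])
    (fun x hx => by
      have h3 : trG W (fun x => ω₁ (f x)) V₁ (b₁ + 1 / 4) (b₁ + 3 / 4) x ≠ 0 := by
        intro h4
        apply hx
        rw [h4, smul_zero]
      have h4 : x ∈ W ∩ {x | b₁ + 1 / 4 < ω₁ (f x) ∧ ω₁ (f x) ≤ b₁ + 3 / 4} := by
        by_contra h5
        exact h3 (Set.indicator_of_notMem h5 _)
      obtain ⟨_, h5, h6⟩ := h4
      have h7 : R < dist (f x) y := by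
        by_contra h8
        have := h1.inn _ (not_lt.mp h8)
        linarith
      have h8 : dist (f x) y < L0 * R := by
        by_contra h8
        have := h1.out _ (not_lt.mp h8)
        linarith
      have h9 := ha _ h8.le
      exact ⟨by show b < ω₂ (f x); linarith, hcle _ h7.le⟩)
  unfold En
  have hI : ∫ x, ‖(2 : ℝ) • trG W (fun x => ω₁ (f x)) V₁ (b₁ + 1 / 4) (b₁ + 3 / 4) x‖ ^ (n : ℝ)
      = 2 ^ n * ∫ x, ‖trG W (fun x => ω₁ (f x)) V₁ (b₁ + 1 / 4) (b₁ + 3 / 4) x‖ ^ (n : ℝ) := by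
    rw [← integral_const_mul]
    congr 1
    funext x
    rw [norm_smul, Real.mul_rpow (norm_nonneg _) (norm_nonneg _), Real.norm_eq_abs, abs_two,
      Real.rpow_natCast]
  rw [hI] at hmain
  refine hmain.trans ?_
  have hI0 : 0 ≤ ∫ x, ‖trG W (fun x => ω₁ (f x)) V₁ (b₁ + 1 / 4) (b₁ + 3 / 4) x‖ ^ (n : ℝ) :=
    integral_nonneg fun x => by positivity
  rw [← mul_assoc]
  refine mul_le_mul_of_nonneg_right ?_ hI0
  have h9 : (c - b) ^ (n - 1) ≤ Q ^ (n - 1) := pow_le_pow_left₀ (by linarith) hcb _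
  have h10 : (b₂ + 3 / 4 - (b₂ + 1 / 4)) = 1 / 2 := by ring
  rw [h10]
  have h11 : (1 / 2 : ℝ) * β ^ n * (c - b) ^ (n - 1) / α ^ n * 2 ^ n
      = ((1 / 2) * 2 ^ n * β ^ n / α ^ n) * (c - b) ^ (n - 1) := by ring
  have h12 : (1 / 2 : ℝ) * 2 ^ n * β ^ n * Q ^ (n - 1) / α ^ n
      = ((1 / 2) * 2 ^ n * β ^ n / α ^ n) * Q ^ (n - 1) := by ring
  rw [h11, h12]
  exact mul_le_mul_of_nonneg_left h9 (by positivity)

end Pool.Agent.Helper897.NHM
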