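import Pool.Agent.Helper897.NHM.Stmts
open MeasureTheory Filter Topology Set Metric
open scoped ENNReal NNReal RealInnerProductSpace

namespace Pool.Agent.Helper897.NHM

open Pool.Agent.Helper533
open Pool.Agent.Helper80.NHM (Normal IsOpenMapOn IsLightOn LocFin EnergyInput)

theorem keyAbs_real {n : ℕ} (hn : 2 ≤ n) {α β e X1 X2 Y d d2 : ℝ} (hα : 0 < α) (hβ : 0 ≤ β)
    (hd : 0 < d) (hd2 : 0 < d2) (hX1 : 0 ≤ X1) (hY : 0 ≤ Y)
    (h1 : α * X1 ≤ d * e) (h2 : α * X2 ≤ d2 * e)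
    (h3 : e ≤ β * (X1 ^ (((n : ℝ) - 1) / n) * Y ^ (1 / (n : ℝ)))) :
    X2 ≤ d2 * β ^ n * d ^ (n - 1) / α ^ n * Y := by
  have hn0 : (0 : ℝ) < n := by positivity
  have he : 0 ≤ e := by
    have : 0 ≤ d * e := (mul_nonneg hα.le hX1).trans h1
    exact nonneg_of_mul_nonneg_right this hd
  have hX1' : X1 ≤ d * e / α := by
    rw [le_div_iff₀ hα, mul_comm]
    exact h1
  have hX2 : X2 ≤ d2 * e / α := by
    rw [le_div_iff₀ hα, mul_comm]
    exact h2
  have hp1 : (X1 ^ (((n : ℝ) - 1) / n)) ^ n = X1 ^ (n - 1) := by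
    rw [← Real.rpow_natCast, ← Real.rpow_mul hX1, div_mul_cancel₀ _ hn0.ne',
      ← Real.rpow_natCast]
    congr 1
    push_cast [Nat.cast_sub (by omega : 1 ≤ n)]
    ring
  have hp2 : (Y ^ (1 / (n : ℝ))) ^ n = Y := by
    rw [← Real.rpow_natCast, ← Real.rpow_mul hY, one_div, inv_mul_cancel₀ hn0.ne', Real.rpow_one]
  have h4 : e ^ n ≤ β ^ n * (X1 ^ (n - 1) * Y) := by
    have := pow_le_pow_left₀ he h3 n
    rwa [mul_pow, mul_pow, hp1, hp2] at this
  obtain ⟨m, rfl⟩ : ∃ m, n = m + 1 := ⟨n - 1, by omega⟩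
  simp only [Nat.add_sub_cancel] at h4 ⊢
  have h5 : X1 ^ m ≤ (d * e / α) ^ m := pow_le_pow_left₀ hX1 hX1' m
  have h6 : e ^ (m + 1) ≤ β ^ (m + 1) * ((d * e / α) ^ m * Y) := by
    refine h4.trans ?_
    gcongr
  rcases he.lt_or_eq with he' | he'
  · have h7 : e ≤ β ^ (m + 1) * (d ^ m / α ^ m) * Y := by
      have h8 : e ^ m * e ≤ e ^ m * (β ^ (m + 1) * (d ^ m / α ^ m) * Y) := by
        calc e ^ m * e = e ^ (m + 1) := by ring
          _ ≤ β ^ (m + 1) * ((d * e / α) ^ m * Y) := h6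
          _ = e ^ m * (β ^ (m + 1) * (d ^ m / α ^ m) * Y) := by
            rw [div_pow, mul_pow]
            ring
      exact le_of_mul_le_mul_left h8 (pow_pos he' m)
    calc X2 ≤ d2 * e / α := hX2
      _ ≤ d2 * (β ^ (m + 1) * (d ^ m / α ^ m) * Y) / α := by gcongr
      _ = d2 * β ^ (m + 1) * d ^ m / α ^ (m + 1) * Y := by
        field_simp
        ring
  · rw [← he', mul_zero, zero_div] at hX2
    refine hX2.trans ?_
    positivity

theorem keyAbs_holder {n : ℕ} (hn : 2 ≤ n) {E Z : Sp n → Sp n}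
    (hE : MemLp E (ENNReal.ofReal (n : ℝ)) volume) (hZ : MemLp Z (ENNReal.ofReal (n : ℝ)) volume) :
    Integrable (fun x => ‖E x‖ ^ ((n : ℝ) - 1) * ‖Z x‖) ∧
    ∫ x, ‖E x‖ ^ ((n : ℝ) - 1) * ‖Z x‖ ≤
      (∫ x, ‖E x‖ ^ (n : ℝ)) ^ (((n : ℝ) - 1) / n) * (∫ x, ‖Z x‖ ^ (n : ℝ)) ^ (1 / (n : ℝ)) := by
  have hn2 : (2 : ℝ) ≤ n := by exact_mod_cast hn
  have hn0 : (0 : ℝ) < n := by linarith
  have hn1 : (0 : ℝ) < (n : ℝ) - 1 := by linarith
  have hpq : ((n : ℝ) / (n - 1)).HolderConjugate (n : ℝ) := by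
    have := Real.HolderConjugate.conjExponent (p := (n : ℝ)) (by linarith)
    exact this.symm
  have hf : MemLp (fun x => ‖E x‖ ^ ((n : ℝ) - 1)) (ENNReal.ofReal ((n : ℝ) / (n - 1))) volume := by
    have h1 := hE.norm_rpow_div (ENNReal.ofReal ((n : ℝ) - 1))
    rwa [ENNReal.toReal_ofReal (by linarith), ← ENNReal.ofReal_div_of_pos hn1] at h1
  have h := integral_mul_le_Lp_mul_Lq_of_nonneg hpq (f := fun x => ‖E x‖ ^ ((n : ℝ) - 1))
    (g := fun x => ‖Z x‖) (Eventually.of_forall fun x => Real.rpow_nonneg (norm_nonneg _) _)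
    (Eventually.of_forall fun x => norm_nonneg _) hf hZ.norm
  constructor
  · haveI : ENNReal.HolderTriple (ENNReal.ofReal ((n : ℝ) / (n - 1))) (ENNReal.ofReal (n : ℝ)) 1 := by
      have := Polar.PolarAux.holder (p := (n : ℝ)) (by linarith)
      rwa [← ENNReal.ofReal_div_of_pos hn1] at this
    have := hZ.norm.mul hf (r := 1)
    rw [memLp_one_iff_integrable] at this
    exact this
  · refine h.trans (le_of_eq ?_)
    congr 1
    have e1 : ∀ x, (‖E x‖ ^ ((n : ℝ) - 1)) ^ ((n : ℝ) / (n - 1)) = ‖E x‖ ^ (n : ℝ) := by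
      intro x
      rw [← Real.rpow_mul (norm_nonneg _)]
      congr 1
      field_simp
    simp only [e1]
    congr 1
    rw [one_div_div]

theorem keyAbs_coer {n : ℕ} (hn : 2 ≤ n) {α β : ℝ} {A : Sp n → Sp n → Sp n}
    (hA : Polar.Op (n : ℝ) α β volume A) {E V : Sp n → Sp n}
    (hE : MemLp E (ENNReal.ofReal (n : ℝ)) volume) (hEV : ∀ x, E x ≠ 0 → E x = V x)
    (hI : Integrable (fun x => ⟪A x (V x), E x⟫)) :
    α * ∫ x, ‖E x‖ ^ (n : ℝ) ≤ ∫ x, ⟪A x (V x), E x⟫ := by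
  have hn2 : (2 : ℝ) ≤ n := by exact_mod_cast hn
  have hn0 : (0 : ℝ) < n := by linarith
  rw [← integral_const_mul]
  have hEi : Integrable (fun x => ‖E x‖ ^ (n : ℝ)) := by
    have := hE.integrable_norm_rpow (ENNReal.ofReal_pos.mpr hn0).ne' ENNReal.ofReal_ne_top
    rwa [ENNReal.toReal_ofReal hn0.le] at this
  apply integral_mono_ae (hEi.const_mul α) hI
  filter_upwards [hA.coer] with x hx
  by_cases h0 : E x = 0
  · rw [h0, norm_zero, Real.zero_rpow hn0.ne', inner_zero_right, mul_zero]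
  · have := hx (V x)
    rw [hEV x h0]
    exact this

theorem H0_sub_aux {n : ℕ} {p : ℝ} (hp : 1 < p) {D : Set (Sp n)} {u w : Sp n → ℝ}
    {U₁ W₁ : Sp n → Sp n} (h : Polar.H0 p volume D u U₁) (h' : Polar.H0 p volume D w W₁) (k : ℝ) :
    Polar.H0 p volume D (fun x => k * u x - w x) (fun x => k • U₁ x - W₁ x) :=
  (h.const_mul k).sub hp.le h'

theorem keyAbs {n : ℕ} (hn : 2 ≤ n) (hT : TrH0 n) (hF : FluxZero n) : KeyAbs n := by
  intro α β A hα hαβ hA D W v V M b' b c b2 c2 hD hW hvc hLH hharm hWc hWD hfr hb'b hbc hcM hb'b2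
    hbc2 hcM2 ζ Z K hK hKW hζ hζK hζ1 hZ
  have hn2 : (2 : ℝ) ≤ n := by exact_mod_cast hn
  have hn0 : (0 : ℝ) < n := by linarith
  have hp1 : (1 : ℝ) < n := by linarith
  obtain ⟨hc1, hH1, K1, hK1, hK1W, hz1⟩ := hT D W v V b' b c hD hW hvc hLH hWc hWD hfr hb'b hbc
  obtain ⟨hc2, hH2, K2, hK2, hK2W, hz2⟩ := hT D W v V b' b2 c2 hD hW hvc hLH hWc hWD hfr hb'b2 hbc2
  have hWD' : W ⊆ D := subset_closure.trans hWD
  have tr1 : ∀ (b c : ℝ) (x : Sp n), b < c → x ∈ W → c < v x → tr W v b c x = c - b ∧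
      trG W v V b c x = 0 := by
    intro b c x hbc hx hcx
    constructor
    · unfold tr
      rw [indicator_of_mem hx, max_eq_left (by linarith), min_eq_right (by linarith)]
    · unfold trG
      rw [indicator_of_notMem]
      rintro ⟨-, -, h⟩
      linarith
  have trE : ∀ (b c : ℝ) (x : Sp n), trG W v V b c x ≠ 0 → trG W v V b c x = V x := by
    intro b c x h
    unfold trG at h ⊢
    by_cases hx : x ∈ W ∩ {x | b < v x ∧ v x ≤ c}
    · rw [indicator_of_mem hx]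
    · rw [indicator_of_notMem hx] at h
      exact absurd rfl h
  have hi1 : Integrable (fun x => ⟪A x (V x), trG W v V b c x⟫) :=
    Polar.integrable_flux hp1 hA hLH hD hK1 (hK1W.trans hWD') hH1.mU
      (Eventually.of_forall fun x hx => (hz1 x hx).2)
  have hi2 : Integrable (fun x => ⟪A x (V x), trG W v V b2 c2 x⟫) :=
    Polar.integrable_flux hp1 hA hLH hD hK2 (hK2W.trans hWD') hH2.mU
      (Eventually.of_forall fun x hx => (hz2 x hx).2)
  have hi0 : Integrable (fun x => ⟪A x (V x), Z x⟫) :=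
    Polar.integrable_flux hp1 hA hLH hD hK (hKW.trans hWD') hζ.mU
      (Eventually.of_forall fun x hx => (hζK x hx).2)
  have hd : 0 < c - b := by linarith
  have hd2 : 0 < c2 - b2 := by linarith
  -- step 1
  have e1 : ∫ x, ⟪A x (V x), trG W v V b c x⟫ = (c - b) * ∫ x, ⟪A x (V x), Z x⟫ := by
    have h := (hF α β A hα hαβ hA D v V M c hD hvc hLH hharm hcM
      (fun x => (c - b)⁻¹ * tr W v b c x - ζ x)
      (fun x => (c - b)⁻¹ • trG W v V b c x - Z x) (K1 ∪ K) (hK1.union hK)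
      (union_subset (hK1W.trans hWD') (hKW.trans hWD'))
      ((H0_sub_aux hp1 (hH1.mono (subset_univ _)) hζ (c - b)⁻¹)) ?_ ?_).2
    · have h' : ∫ x, ⟪A x (V x), (c - b)⁻¹ • trG W v V b c x - Z x⟫ =
          (c - b)⁻¹ * (∫ x, ⟪A x (V x), trG W v V b c x⟫) - ∫ x, ⟪A x (V x), Z x⟫ := by
        rw [← integral_const_mul, ← integral_sub (hi1.const_mul _) hi0]
        congr 1
        funext x
        rw [inner_sub_right, inner_smul_right]
      rw [h'] at h
      have h2 : (c - b)⁻¹ * ∫ x, ⟪A x (V x), trG W v V b c x⟫ = ∫ x, ⟪A x (V x), Z x⟫ := by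
        linarith
      rw [← h2, mul_inv_cancel_left₀ hd.ne']
    · intro x hx
      rw [mem_union, not_or] at hx
      rw [(hz1 x hx.1).1, (hz1 x hx.1).2, (hζK x hx.2).1, (hζK x hx.2).2]
      simp
    · intro x hx hcx
      have hxW : x ∈ W := by
        rcases hx with hx | hx
        · exact hK1W hx
        · exact hKW hx
      rw [(tr1 b c x hbc hxW hcx).1, (tr1 b c x hbc hxW hcx).2, (hζ1 x hxW hcx).1,
        (hζ1 x hxW hcx).2]
      constructor
      · rw [inv_mul_cancel₀ hd.ne', sub_self]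
      · simp
  -- step 2
  have e2 : ∫ x, ⟪A x (V x), trG W v V b2 c2 x⟫ = (c2 - b2) * ∫ x, ⟪A x (V x), Z x⟫ := by
    have h := (hF α β A hα hαβ hA D v V M (max c c2) hD hvc hLH hharm (max_lt hcM hcM2)
      (fun x => (c2 - b2)⁻¹ * tr W v b2 c2 x - ζ x)
      (fun x => (c2 - b2)⁻¹ • trG W v V b2 c2 x - Z x) (K2 ∪ K) (hK2.union hK)
      (union_subset (hK2W.trans hWD') (hKW.trans hWD'))
      ((H0_sub_aux hp1 (hH2.mono (subset_univ _)) hζ (c2 - b2)⁻¹)) ?_ ?_).2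
    · have h' : ∫ x, ⟪A x (V x), (c2 - b2)⁻¹ • trG W v V b2 c2 x - Z x⟫ =
          (c2 - b2)⁻¹ * (∫ x, ⟪A x (V x), trG W v V b2 c2 x⟫) - ∫ x, ⟪A x (V x), Z x⟫ := by
        rw [← integral_const_mul, ← integral_sub (hi2.const_mul _) hi0]
        congr 1
        funext x
        rw [inner_sub_right, inner_smul_right]
      rw [h'] at h
      have h2 : (c2 - b2)⁻¹ * ∫ x, ⟪A x (V x), trG W v V b2 c2 x⟫ = ∫ x, ⟪A x (V x), Z x⟫ := by
        linarith
      rw [← h2, mul_inv_cancel_left₀ hd2.ne']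
    · intro x hx
      rw [mem_union, not_or] at hx
      rw [(hz2 x hx.1).1, (hz2 x hx.1).2, (hζK x hx.2).1, (hζK x hx.2).2]
      simp
    · intro x hx hcx
      have hxW : x ∈ W := by
        rcases hx with hx | hx
        · exact hK2W hx
        · exact hKW hx
      have hcx1 : c < v x := (le_max_left _ _).trans_lt hcx
      have hcx2 : c2 < v x := (le_max_right _ _).trans_lt hcx
      rw [(tr1 b2 c2 x hbc2 hxW hcx2).1, (tr1 b2 c2 x hbc2 hxW hcx2).2, (hζ1 x hxW hcx1).1,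
        (hζ1 x hxW hcx1).2]
      constructor
      · rw [inv_mul_cancel₀ hd2.ne', sub_self]
      · simp
  -- step 3
  have h1 := keyAbs_coer hn hA hH1.mU (trE b c) hi1
  have h2 := keyAbs_coer hn hA hH2.mU (trE b2 c2) hi2
  rw [e1] at h1
  rw [e2] at h2
  -- step 4
  obtain ⟨hint, hhol⟩ := keyAbs_holder hn hH1.mU hζ.mU
  have h3 : ∫ x, ⟪A x (V x), Z x⟫ ≤ β * ∫ x, ‖trG W v V b c x‖ ^ ((n : ℝ) - 1) * ‖Z x‖ := by
    rw [← integral_const_mul]
    apply integral_mono_ae hi0 (hint.const_mul β)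
    filter_upwards [hA.bdd] with x hx
    by_cases h0 : Z x = 0
    · rw [h0, inner_zero_right, norm_zero, mul_zero, mul_zero]
    · have hxK : x ∈ K := by
        by_contra hc
        exact h0 (hζK x hc).2
      have hE : trG W v V b c x = V x := by
        unfold trG
        rw [indicator_of_mem]
        exact ⟨hKW hxK, hZ x h0⟩
      rw [hE]
      calc ⟪A x (V x), Z x⟫ ≤ ‖A x (V x)‖ * ‖Z x‖ := real_inner_le_norm _ _
        _ ≤ (β * ‖V x‖ ^ ((n : ℝ) - 1)) * ‖Z x‖ :=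
            mul_le_mul_of_nonneg_right (hx (V x)) (norm_nonneg _)
        _ = β * (‖V x‖ ^ ((n : ℝ) - 1) * ‖Z x‖) := by ring
  have hβ : 0 ≤ β := hα.le.trans hαβ
  have h4 := h3.trans (mul_le_mul_of_nonneg_left hhol hβ)
  exact keyAbs_real hn hα hβ hd hd2
    (integral_nonneg fun x => Real.rpow_nonneg (norm_nonneg _) _)
    (integral_nonneg fun x => Real.rpow_nonneg (norm_nonneg _) _) h1 h2 h4

end Pool.Agent.Helper897.NHM
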