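import Pool.Agent.Helper795.LusinN
import Pool.Agent.Helper897.NHM.Stmts
open MeasureTheory Filter Topology Set Metric
open scoped ENNReal NNReal RealInnerProductSpace

namespace Pool.Agent.Helper897.NHM

open Pool.Agent.Helper533
open Pool.Agent.Helper80.NHM (Normal IsOpenMapOn IsLightOn LocFin EnergyInput)

theorem loewner {n : ℕ} (hn : 2 ≤ n)
    (hmol : ∀ (φ : Sp n → ℝ) (Φ : Sp n → Sp n), Continuous φ → HasCompactSupport φ →
      Polar.H0 (n : ℝ) volume univ φ Φ → ∀ ε : ℝ, 0 < ε →
      ∃ ψ : Sp n → ℝ, ContDiff ℝ 1 ψ ∧ (∀ x, |ψ x - φ x| ≤ ε) ∧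
        ∫⁻ x, ‖fderiv ℝ ψ x‖ₑ ^ (n : ℝ) ≤ (∫⁻ x, ‖Φ x‖ₑ ^ (n : ℝ)) + ENNReal.ofReal ε) :
    Loewner n := by
  intro τ hτ
  have hn2 : (2 : ℝ) ≤ n := by exact_mod_cast hn
  have hn0 : (0 : ℝ) < n := by linarith
  obtain ⟨C, hC, hCb⟩ := Pool.Agent.Helper795.LusinN.averaged_bound (n := n) hn (p := (n : ℝ))
    (by linarith)
  set K : ℝ := C.toReal with hK
  have hK0 : 0 ≤ K := ENNReal.toReal_nonneg
  refine ⟨(τ / 8) ^ n / ((K + 1) * n * 3 ^ n), by positivity, ?_⟩
  intro x D φ Φ hD hφc hH hφ0 E hE hE1 e he e' he' hd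
  set d : ℝ := dist e e' with hdd
  have hd0 : 0 < d := lt_of_lt_of_le (by positivity) hd
  have hex : dist e x ≤ D := by
    by_contra h
    have := hE1 e he
    rw [hφ0 e (not_le.1 h)] at this
    linarith
  have hex' : dist e' x ≤ D := by
    by_contra h
    have := hE1 e' he'
    rw [hφ0 e' (not_le.1 h)] at this
    linarith
  have hd2 : d ≤ 2 * D := by
    have := dist_triangle_right e e' x
    linarith
  set u : Sp n := (1 / d) • (e - e') with hu
  have hun : ‖u‖ = 1 := by
    rw [hu, norm_smul, ← dist_eq_norm, ← hdd, Real.norm_of_nonneg (by positivity)]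
    field_simp
  set z0 : Sp n := e + (2 * D) • u with hz0
  set t : ℝ := 2 * D + d / 2 with ht
  set δ : ℝ := d / 4 with hδ
  have ht0 : 0 < t := by positivity
  have hδ0 : 0 < δ := by positivity
  have hz0e : dist z0 e = 2 * D := by
    rw [dist_eq_norm, hz0, add_sub_cancel_left, norm_smul, hun, mul_one,
      Real.norm_of_nonneg (by positivity)]
  have hz0e' : dist z0 e' = 2 * D + d := by
    have h1 : z0 - e' = (2 * D + d) • u := by
      have : e - e' = d • u := by
        rw [hu, smul_smul]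
        have : d * (1 / d) = 1 := by field_simp
        rw [this, one_smul]
      rw [hz0, add_smul, ← this]
      abel
    rw [dist_eq_norm, h1, norm_smul, hun, mul_one, Real.norm_of_nonneg (by positivity)]
  have hcs : HasCompactSupport φ := HasCompactSupport.intro (isCompact_closedBall x D)
    (fun w hw => hφ0 w (by simpa using hw))
  have hI : ∫⁻ w, ‖Φ w‖ₑ ^ (n : ℝ) ≠ ⊤ := by
    have h := hH.mU
    have h2 := lintegral_rpow_enorm_lt_top_of_eLpNorm_lt_top (f := Φ) (μ := volume)
      (p := ENNReal.ofReal (n : ℝ)) (ENNReal.ofReal_pos.2 hn0).ne' ENNReal.ofReal_ne_top h.2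
    rw [ENNReal.toReal_ofReal hn0.le] at h2
    exact h2.ne
  have hIr : ∫ w, ‖Φ w‖ ^ (n : ℝ) = (∫⁻ w, ‖Φ w‖ₑ ^ (n : ℝ)).toReal := by
    rw [integral_eq_lintegral_of_nonneg_ae]
    · congr 1
      refine lintegral_congr fun w => ?_
      rw [← ENNReal.ofReal_rpow_of_nonneg (norm_nonneg _) hn0.le, ofReal_norm]
    · exact Eventually.of_forall fun w => by positivity
    · exact (hH.mU.1.norm.aemeasurable.pow_const _).aestronglyMeasurable
  set I : ℝ≥0∞ := ∫⁻ w, ‖Φ w‖ₑ ^ (n : ℝ) with hIdef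
  have key : ∀ ε : ℝ, 0 < ε → ε ≤ 1 / 4 →
      (1 / 2 : ℝ) ^ n * δ ^ n ≤ K * t ^ n * (n * (I.toReal + ε)) := by
    intro ε hε hε4
    obtain ⟨ψ, hψ1, hψ2, hψ3⟩ := hmol φ Φ hφc hcs hH ε hε
    have h := hCb (fun _ => ψ) (fun _ => hψ1) z0 t δ ht0 hδ0 (ENNReal.ofReal (1 / 2)) ?_
    · have h' : ENNReal.ofReal (1 / 2) ^ (n : ℝ) * ENNReal.ofReal (δ ^ n) ≤
          C * ENNReal.ofReal t ^ (n : ℝ) * ((n : ℝ≥0∞) * (I + ENNReal.ofReal ε)) := by
        refine h.trans ?_
        rw [Finset.sum_const, Finset.card_univ, Fintype.card_fin, nsmul_eq_mul]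
        gcongr
        exact (setLIntegral_le_lintegral _ _).trans hψ3
      have h2 := ENNReal.toReal_mono ?_ h'
      · rw [ENNReal.toReal_mul, ENNReal.toReal_mul, ENNReal.toReal_mul, ENNReal.toReal_mul,
          ENNReal.toReal_add hI ENNReal.ofReal_ne_top, ← ENNReal.toReal_rpow,
          ← ENNReal.toReal_rpow, ENNReal.toReal_ofReal (by norm_num),
          ENNReal.toReal_ofReal (by positivity), ENNReal.toReal_ofReal ht0.le,
          ENNReal.toReal_ofReal hε.le, ENNReal.toReal_natCast, Real.rpow_natCast,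
          Real.rpow_natCast] at h2
        exact h2
      · refine ENNReal.mul_ne_top (ENNReal.mul_ne_top hC ?_) (ENNReal.mul_ne_top
          (ENNReal.natCast_ne_top _) (ENNReal.add_ne_top.2 ⟨hI, ENNReal.ofReal_ne_top⟩))
        exact ENNReal.rpow_ne_top_of_nonneg hn0.le ENNReal.ofReal_ne_top
    · intro z hz
      rw [mem_closedBall] at hz
      have h1 : dist e z ≤ t := by
        have := dist_triangle_left e z z0
        rw [dist_comm z0 z] at this
        linarith
      have h2 : t ≤ dist e' z := by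
        have := dist_triangle z0 z e'
        rw [dist_comm z0 z, dist_comm z e'] at this
        linarith
      obtain ⟨a, haE, ha⟩ := hE.intermediate_value he he'
        (f := fun w => dist w z) (by fun_prop) ⟨h1, h2⟩
      obtain ⟨b, hb, hbx⟩ : ∃ b ∈ sphere z t, D < dist b x := by
        have aux : ∀ v : Sp n, ‖v‖ = 1 → 0 ≤ ⟪z - x, v⟫ →
            z + t • v ∈ sphere z t ∧ D < dist (z + t • v) x := by
          intro v hv hvz
          constructor
          · rw [mem_sphere, dist_eq_norm, add_sub_cancel_left, norm_smul, hv, mul_one,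
              Real.norm_of_nonneg ht0.le]
          · have h3 : ‖z + t • v - x‖ ^ 2 = ‖z - x‖ ^ 2 + 2 * (t * ⟪z - x, v⟫) + t ^ 2 := by
              have : z + t • v - x = (z - x) + t • v := by abel
              rw [this, norm_add_sq_real, norm_smul, hv, mul_one, inner_smul_right,
                Real.norm_of_nonneg ht0.le]
            have h4 : t ^ 2 ≤ ‖z + t • v - x‖ ^ 2 := by
              rw [h3]
              have := mul_nonneg ht0.le hvz
              nlinarith [sq_nonneg ‖z - x‖]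
            rw [dist_eq_norm]
            have h5 : t ≤ ‖z + t • v - x‖ := le_of_sq_le_sq h4 (norm_nonneg _)
            have : D < t := by rw [ht]; linarith
            linarith
        rcases le_total 0 ⟪z - x, u⟫ with h | h
        · exact ⟨_, aux u hun h⟩
        · refine ⟨_, aux (-u) (by rw [norm_neg, hun]) ?_⟩
          rw [inner_neg_right]; linarith
      refine ⟨a, ha, b, hb, ?_⟩
      have hφa := hE1 a haE
      have hφb := hφ0 b hbx
      have hψa := abs_le.1 (hψ2 a)
      have hψb := abs_le.1 (hψ2 b)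
      have h6 : (1 / 2 : ℝ) ≤ |ψ a - ψ b| := by
        rw [hφb] at hψb
        exact le_trans (by linarith [hψa.1, hψb.2]) (le_abs_self _)
      rw [Finset.sum_const, Finset.card_univ, Fintype.card_fin, nsmul_eq_mul]
      have h7 : ENNReal.ofReal (1 / 2) ≤ ‖ψ a - ψ b‖ₑ := by
        rw [← ofReal_norm]
        exact ENNReal.ofReal_le_ofReal (by rwa [Real.norm_eq_abs])
      refine h7.trans ?_
      refine le_mul_of_one_le_left (by positivity) ?_
      exact_mod_cast (by omega : 1 ≤ n)
  have key2 : (1 / 2 : ℝ) ^ n * δ ^ n ≤ K * t ^ n * (n * I.toReal) := by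
    have hlim : Tendsto (fun ε : ℝ => K * t ^ n * (n * (I.toReal + ε))) (𝓝[>] 0)
        (𝓝 (K * t ^ n * (n * (I.toReal + 0)))) := by
      refine Tendsto.mono_left ?_ nhdsWithin_le_nhds
      exact (Continuous.tendsto (by fun_prop) _)
    rw [add_zero] at hlim
    refine ge_of_tendsto hlim ?_
    filter_upwards [Ioc_mem_nhdsGT (show (0 : ℝ) < 1 / 4 by norm_num)] with ε hε
    exact key ε hε.1 hε.2
  rw [hIr, div_le_iff₀ (by positivity)]
  have hI0 : 0 ≤ I.toReal := ENNReal.toReal_nonneg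
  have h8 : (τ / 8) ^ n * D ^ n ≤ (1 / 2 : ℝ) ^ n * δ ^ n := by
    rw [← mul_pow, ← mul_pow]
    refine pow_le_pow_left₀ (by positivity) ?_ n
    rw [hδ]; linarith
  have h9 : t ^ n ≤ 3 ^ n * D ^ n := by
    rw [← mul_pow]
    refine pow_le_pow_left₀ (by positivity) ?_ n
    rw [ht]; linarith
  have h10 : (τ / 8) ^ n * D ^ n ≤ (I.toReal * ((K + 1) * n * 3 ^ n)) * D ^ n := by
    calc (τ / 8) ^ n * D ^ n ≤ K * t ^ n * (n * I.toReal) := h8.trans key2
      _ ≤ (K + 1) * (3 ^ n * D ^ n) * (n * I.toReal) := by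
        gcongr
        linarith
      _ = _ := by ring
  exact le_of_mul_le_mul_right h10 (by positivity)

end Pool.Agent.Helper897.NHM
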