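import Pool.Agent.Helper897.NHM.Stmts2
open MeasureTheory Filter Topology Set Metric
open scoped ENNReal NNReal RealInnerProductSpace

namespace Pool.Agent.Helper897.NHM

open Pool.Agent.Helper533
open Pool.Agent.Helper80.NHM (Normal IsOpenMapOn IsLightOn LocFin EnergyInput)

theorem lowIter {n : ℕ} (hn : 2 ≤ n) (hTop : AllTopA n) (hR : ExistsRing n) (hK : Key n)
    (hS : Shrink n) (hM : EnMono n) (hI : EnInt n) : LowIter n := by
  intro α β C1 L0 hα hαβ hL0
  have hL0pos : 0 < L0 := by linarith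
  obtain ⟨C, hC, hKey⟩ := hK α β C1 L0 hα hαβ hL0
  obtain ⟨c, hc, hSh⟩ := hS (1 / (2 * L0)) (by positivity)
  refine ⟨c / C, by positivity, ?_⟩
  intro Ast hOp G f y0 s hG hf hPot x R ω M V b hxG hRing hd1 hLam hcomp hsub hEn D0 hD0 hW z hz
    x' hx' m
  have T : TopA G f := hTop G f hG hf
  have hRpos : 0 < R := hRing.rpos
  have hRle : R ≤ s / (8 * L0) := hRing.rle
  have hΛ : 2 ≤ Lam L0 := by
    unfold Lam
    nlinarith
  have hΛR : 2 * R ≤ Lam L0 * R := mul_le_mul_of_nonneg_right hΛ hRpos.le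
  have hWG : closure (U G f (f x) (Lam L0 * R) x) ⊆ G := hsub.trans inter_subset_left
  have hWopen : IsOpen (U G f (f x) (Lam L0 * R) x) := T.isOpen _ _ _
  have hsm : ∀ ρ : ℝ, ρ ≤ R / 4 → U G f z ρ x' ⊆ U G f (f x) (Lam L0 * R) x := by
    intro ρ hρ
    refine T.mono (f x) (Lam L0 * R) x z ρ x' hx' (ball_subset_ball' ?_)
    linarith
  have hfr : ∀ w ∈ frontier (U G f (f x) (Lam L0 * R) x), dist (f w) (f x) = Lam L0 * R :=
    T.front (f x) (Lam L0 * R) x hWG
  induction m with
  | zero =>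
    intro _
    simp only [pow_zero, mul_one]
    intro w hw
    have h1 : w ∈ closedBall x D0 := hW (hsm (R / 4) le_rfl hw)
    have h2 : x' ∈ closedBall x D0 := hW hx'
    rw [mem_closedBall] at h1 h2 ⊢
    have h3 : dist w x' ≤ dist w x + dist x x' := dist_triangle _ _ _
    rw [dist_comm x x'] at h3
    linarith
  | succ m ih =>
    intro hlt
    have hpow : (1 / L0) ^ (m + 1) ≤ (1 / L0) ^ m := by
      apply pow_le_pow_of_le_one (by positivity) _ (Nat.le_succ m)
      rw [div_le_one hL0pos]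
      linarith
    have hpow1 : (1 / L0) ^ m ≤ 1 := by
      apply pow_le_one₀ (by positivity)
      rw [div_le_one hL0pos]
      linarith
    have hrm : L0 * (R / 4 * (1 / L0) ^ (m + 1)) = R / 4 * (1 / L0) ^ m := by
      rw [pow_succ]
      field_simp
    have hr0 : 0 < R / 4 * (1 / L0) ^ (m + 1) := by positivity
    have hρm : R / 4 * (1 / L0) ^ m ≤ R / 4 := by
      have : R / 4 * (1 / L0) ^ m ≤ R / 4 * 1 := mul_le_mul_of_nonneg_left hpow1 (by positivity)
      linarith
    have hrρ : R / 4 * (1 / L0) ^ (m + 1) ≤ R / 4 * (1 / L0) ^ m :=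
      mul_le_mul_of_nonneg_left hpow (by positivity)
    have ih' := ih (lt_of_lt_of_le hlt hrρ)
    set r : ℝ := R / 4 * (1 / L0) ^ (m + 1) with hr
    have hU1W : U G f z (L0 * r) x' ⊆ U G f (f x) (Lam L0 * R) x := hsm _ (by rw [hrm]; exact hρm)
    have hcl : closure (U G f z (L0 * r) x') ⊆ closure (U G f (f x) (Lam L0 * R) x) :=
      closure_mono hU1W
    have hcomp1 : IsCompact (closure (U G f z (L0 * r) x')) :=
      hcomp.of_isClosed_subset isClosed_closure hcl
    have hzy : z ∈ closedBall y0 (s / 4) := by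
      rw [mem_closedBall]
      have := dist_triangle z (f x) y0
      linarith
    obtain ⟨ω₂, M₂, V₂, b₂, hRing₂⟩ := hR C1 L0 Ast G f y0 s hL0 hPot z hzy r hr0 (by linarith)
    have hkey := hKey Ast hOp G f y0 s hG hf (f x) R ω M V b hRing z r ω₂ M₂ V₂ b₂ hRing₂
      (U G f (f x) (Lam L0 * R) x) hWopen hcomp hsub (fun w hw => (hfr w hw).ge)
      (by rw [hrm]; linarith) hLam
    have hint := hI C1 L0 Ast G f y0 s z r ω₂ M₂ V₂ b₂ hG hf hRing₂
      (U G f (f x) (Lam L0 * R) x) hWopen hcomp hsub (by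
        intro w hw
        have h1 := hfr w hw
        have h2 := dist_triangle (f w) z (f x)
        rw [hrm]
        linarith)
    have hmono := hM (U G f (f x) (Lam L0 * R) x) (U G f z (L0 * r) x') (fun x => ω₂ (f x)) V₂ b₂
      (T.isOpen _ _ _).measurableSet hU1W hint
    have hElt : En (U G f z (L0 * r) x') (fun x => ω₂ (f x)) V₂ b₂ < c := by
      refine lt_of_le_of_lt (hmono.trans hkey) ?_
      calc C * En (U G f (f x) (Lam L0 * R) x) (fun x => ω (f x)) V b < C * (c / C) :=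
            mul_lt_mul_of_pos_left hEn hC
        _ = c := by field_simp
    have hfin := hSh C1 L0 Ast G f y0 s hL0 hG hf z r ω₂ M₂ V₂ b₂ hRing₂ x'
      (2 * D0 * (1 / (2 * L0)) ^ m) (T.sub _ _ _ hx').1 hlt (by positivity) hcomp1
      (hcl.trans hsub) (by rw [hrm]; exact ih') hElt
    have e : 1 / (2 * L0) * (2 * D0 * (1 / (2 * L0)) ^ m) = 2 * D0 * (1 / (2 * L0)) ^ (m + 1) := by
      ring
    rw [e] at hfin
    exact hfin

end Pool.Agent.Helper897.NHM
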