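import Pool.Agent.Helper795.LusinN
import Pool.Agent.Helper897.NHM.Stmts
open MeasureTheory Filter Topology Set Metric
open scoped ENNReal NNReal RealInnerProductSpace

namespace Pool.Agent.Helper897.NHM

open Pool.Agent.Helper533
open Pool.Agent.Helper80.NHM (Normal IsOpenMapOn IsLightOn LocFin EnergyInput)

/-- Jensen for the power function, in a probability space -/
theorem moll_jensen {α : Type*} [MeasurableSpace α] (ν : Measure α) [IsProbabilityMeasure ν]
    {p : ℝ} (hp : 1 < p) {g : α → ℝ≥0∞} (hg : AEMeasurable g ν) :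
    (∫⁻ a, g a ∂ν) ^ p ≤ ∫⁻ a, g a ^ p ∂ν := by
  have hpq : p.HolderConjugate (Real.conjExponent p) := Real.HolderConjugate.conjExponent hp
  have h := ENNReal.lintegral_mul_le_Lp_mul_Lq ν hpq hg (g := fun _ => 1) aemeasurable_const
  simp only [Pi.mul_apply, mul_one, ENNReal.one_rpow, lintegral_const, one_mul, measure_univ] at h
  have h2 := ENNReal.rpow_le_rpow h (by linarith : 0 ≤ p)
  rwa [← ENNReal.rpow_mul, one_div_mul_cancel (by linarith), ENNReal.rpow_one] at h2

/-- pointwise Jensen inequality for mollifications -/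
theorem moll_pt {n : ℕ} {E : Type*} [NormedAddCommGroup E] [NormedSpace ℝ E]
    {p : ℝ} (hp : 1 < p) {ρ : Sp n → ℝ} (hρc : Continuous ρ) (hρ0 : ∀ x, 0 ≤ ρ x)
    (hρi : ∫ x, ρ x = 1) (hρint : Integrable ρ) {G : Sp n → E} (hG : Continuous G) (x : Sp n) :
    ‖∫ t, ρ t • G (x - t)‖ₑ ^ p ≤ ∫⁻ t, ENNReal.ofReal (ρ t) * ‖G (x - t)‖ₑ ^ p := by
  have hm : Measurable fun t => ENNReal.ofReal (ρ t) := hρc.measurable.ennreal_ofReal
  set ν : Measure (Sp n) := volume.withDensity fun t => ENNReal.ofReal (ρ t) with hν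
  haveI : IsProbabilityMeasure ν := by
    constructor
    rw [hν, withDensity_apply _ MeasurableSet.univ, Measure.restrict_univ,
      ← ofReal_integral_eq_lintegral_ofReal hρint (Filter.Eventually.of_forall hρ0), hρi,
      ENNReal.ofReal_one]
  have hGc : Continuous fun t => G (x - t) := hG.comp (continuous_const.sub continuous_id)
  have hGm : Measurable fun t => ‖G (x - t)‖ₑ := (continuous_enorm.comp hGc).measurable
  have h1 : ‖∫ t, ρ t • G (x - t)‖ₑ ≤ ∫⁻ t, ‖G (x - t)‖ₑ ∂ν := by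
    rw [hν, lintegral_withDensity_eq_lintegral_mul _ hm hGm]
    refine (enorm_integral_le_lintegral_enorm _).trans (le_of_eq ?_)
    apply lintegral_congr
    intro t
    rw [Pi.mul_apply, enorm_smul, Real.enorm_eq_ofReal (hρ0 t)]
  refine (ENNReal.rpow_le_rpow h1 (by linarith)).trans
    ((moll_jensen ν hp hGm.aemeasurable).trans (le_of_eq ?_))
  rw [hν, lintegral_withDensity_eq_lintegral_mul _ hm (hGm.pow_const p)]
  rfl

theorem moll_energy {n : ℕ} {E : Type*} [NormedAddCommGroup E] [NormedSpace ℝ E]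
    {p : ℝ} (hp : 1 < p) {ρ : Sp n → ℝ} (hρc : Continuous ρ) (hρ0 : ∀ x, 0 ≤ ρ x)
    (hρi : ∫ x, ρ x = 1) (hρint : Integrable ρ) {G : Sp n → E} (hG : Continuous G) :
    ∫⁻ x, ‖∫ t, ρ t • G (x - t)‖ₑ ^ p ≤ ∫⁻ x, ‖G x‖ₑ ^ p := by
  have hm : Measurable fun t => ENNReal.ofReal (ρ t) := hρc.measurable.ennreal_ofReal
  refine (lintegral_mono fun x => moll_pt hp hρc hρ0 hρi hρint hG x).trans ?_
  have hmeas : Measurable fun q : Sp n × Sp n =>
      ENNReal.ofReal (ρ q.2) * ‖G (q.1 - q.2)‖ₑ ^ p := by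
    apply Measurable.mul
    · exact hm.comp measurable_snd
    · apply Measurable.pow_const
      exact (continuous_enorm.comp (hG.comp (continuous_fst.sub continuous_snd))).measurable
  rw [lintegral_lintegral_swap hmeas.aemeasurable]
  have h1 : ∀ t : Sp n, ∫⁻ x, ENNReal.ofReal (ρ t) * ‖G (x - t)‖ₑ ^ p =
      ENNReal.ofReal (ρ t) * ∫⁻ x, ‖G x‖ₑ ^ p := by
    intro t
    rw [lintegral_const_mul']
    · congr 1
      exact lintegral_sub_right_eq_self (fun x => ‖G x‖ₑ ^ p) t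
    · exact ENNReal.ofReal_ne_top
  simp only [h1]
  rw [lintegral_mul_const _ hm, ← ofReal_integral_eq_lintegral_ofReal hρint
    (Filter.Eventually.of_forall hρ0), hρi, ENNReal.ofReal_one, one_mul]

/-- NOTE FOR helper897: the posted target parses as `∫⁻ x, (‖Φ x‖ₑ ^ n + ENNReal.ofReal ε)`, whose
value is `∞`; this is the intended statement, with parentheses around the integral. -/
theorem mollify_H0_strong {n : ℕ} (hn : 2 ≤ n) {φ : Sp n → ℝ} {Φ : Sp n → Sp n}
    (hφc : Continuous φ)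
    (hφ0 : HasCompactSupport φ) (h : Polar.H0 (n : ℝ) volume univ φ Φ) {ε : ℝ} (hε : 0 < ε) :
    ∃ ψ : Sp n → ℝ, ContDiff ℝ 1 ψ ∧ (∀ x, |ψ x - φ x| ≤ ε) ∧
      ∫⁻ x, ‖fderiv ℝ ψ x‖ₑ ^ (n : ℝ) ≤ (∫⁻ x, ‖Φ x‖ₑ ^ (n : ℝ)) + ENNReal.ofReal ε := by
  have hp : (1 : ℝ) < n := by
    have : 1 < n := by omega
    exact_mod_cast this
  have hn0 : (0 : ℝ) < n := by linarith
  have hq0 : ENNReal.ofReal (n : ℝ) ≠ 0 := by
    intro hc
    rw [ENNReal.ofReal_eq_zero] at hc
    linarith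
  have hqt : (ENNReal.ofReal (n : ℝ)).toReal = n := ENNReal.toReal_ofReal hn0.le
  have hLp : ∀ {E : Type} [NormedAddCommGroup E] (f : Sp n → E),
      ∫⁻ x, ‖f x‖ₑ ^ (n : ℝ) = eLpNorm f (ENNReal.ofReal (n : ℝ)) volume ^ (n : ℝ) := by
    intro E _ f
    rw [eLpNorm_eq_lintegral_rpow_enorm_toReal hq0 ENNReal.ofReal_ne_top, hqt,
      ← ENNReal.rpow_mul, one_div_mul_cancel hn0.ne', ENNReal.rpow_one]
  -- uniform continuity
  have huc := hφ0.uniformContinuous_of_continuous hφc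
  rw [Metric.uniformContinuous_iff] at huc
  obtain ⟨δ, hδ, hδφ⟩ := huc (ε / 2) (by positivity)
  let b : ContDiffBump (0 : Sp n) := ⟨δ / 2, δ, by positivity, by linarith⟩
  obtain ⟨ρ, hρ⟩ : ∃ ρ : Sp n → ℝ, ρ = b.normed volume := ⟨_, rfl⟩
  have hρs : ContDiff ℝ 1 ρ := by rw [hρ]; exact b.contDiff_normed (n := 1)
  have hρc : HasCompactSupport ρ := by rw [hρ]; exact b.hasCompactSupport_normed
  have hρ0 : ∀ x, 0 ≤ ρ x := by rw [hρ]; exact b.nonneg_normed
  have hρi : ∫ x, ρ x = 1 := by rw [hρ]; exact b.integral_normed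
  have hρint : Integrable ρ := hρs.continuous.integrable_of_hasCompactSupport hρc
  obtain ⟨M, hM⟩ := hρc.exists_bound_of_continuous hρs.continuous
  have hM0 : 0 ≤ M := (norm_nonneg _).trans (hM 0)
  have hclose : ∀ x, |(∫ t, ρ t • φ (x - t)) - φ x| ≤ ε / 2 := by
    intro x
    have := b.dist_normed_convolution_le (μ := volume) (g := φ) (x₀ := x) (ε := ε / 2)
      hφc.aestronglyMeasurable (fun y hy => (hδφ hy).le)
    rw [Real.dist_eq, convolution_def, ← hρ] at this
    exact this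
  -- choice of the approximation
  obtain ⟨η1, hη1, hη1'⟩ : ∃ η1 : ℝ≥0∞, η1 ≠ 0 ∧
      ENNReal.ofReal M * η1 ^ (n : ℝ) ≤ ENNReal.ofReal (ε / 2) ^ (n : ℝ) := by
    refine ⟨ENNReal.ofReal (ε / 2 / (M + 1)), ?_, ?_⟩
    · rw [ENNReal.ofReal_ne_zero_iff]
      positivity
    · rw [ENNReal.ofReal_rpow_of_pos (by positivity), ENNReal.ofReal_rpow_of_pos (by positivity),
        ← ENNReal.ofReal_mul hM0]
      apply ENNReal.ofReal_le_ofReal
      rw [Real.div_rpow (by positivity) (by positivity)]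
      have h1 : M + 1 ≤ (M + 1) ^ (n : ℝ) := by
        conv_lhs => rw [← Real.rpow_one (M + 1)]
        exact Real.rpow_le_rpow_of_exponent_le (by linarith) hp.le
      have h2 : 0 < (M + 1) ^ (n : ℝ) := by positivity
      have h3 : 0 < (ε / 2) ^ (n : ℝ) := by positivity
      rw [← mul_div_assoc, div_le_iff₀ h2]
      nlinarith
  obtain ⟨η2, hη2, hη2'⟩ : ∃ η2 : ℝ≥0∞, η2 ≠ 0 ∧
      (eLpNorm Φ (ENNReal.ofReal (n : ℝ)) volume + η2) ^ (n : ℝ) ≤
        eLpNorm Φ (ENNReal.ofReal (n : ℝ)) volume ^ (n : ℝ) + ENNReal.ofReal ε := by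
    have ha : eLpNorm Φ (ENNReal.ofReal (n : ℝ)) volume ≠ ∞ := h.mU.eLpNorm_ne_top
    have hcont : Tendsto (fun η : ℝ≥0∞ =>
        (eLpNorm Φ (ENNReal.ofReal (n : ℝ)) volume + η) ^ (n : ℝ)) (𝓝 0)
        (𝓝 ((eLpNorm Φ (ENNReal.ofReal (n : ℝ)) volume + 0) ^ (n : ℝ))) :=
      (ENNReal.continuous_rpow_const.tendsto _).comp (tendsto_const_nhds.add tendsto_id)
    rw [add_zero] at hcont
    have hlt : eLpNorm Φ (ENNReal.ofReal (n : ℝ)) volume ^ (n : ℝ) <
        eLpNorm Φ (ENNReal.ofReal (n : ℝ)) volume ^ (n : ℝ) + ENNReal.ofReal ε :=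
      ENNReal.lt_add_right (ENNReal.rpow_ne_top_of_nonneg hn0.le ha) (by
        rw [ENNReal.ofReal_ne_zero_iff]; exact hε)
    have hev := hcont.eventually (gt_mem_nhds hlt)
    have hne : (𝓝[≠] (0 : ℝ≥0∞)).NeBot := inferInstance
    have hev2 : ∀ᶠ η in 𝓝[≠] (0 : ℝ≥0∞), (eLpNorm Φ (ENNReal.ofReal (n : ℝ)) volume + η) ^ (n : ℝ) <
        eLpNorm Φ (ENNReal.ofReal (n : ℝ)) volume ^ (n : ℝ) + ENNReal.ofReal ε :=
      nhdsWithin_le_nhds hev
    obtain ⟨η, h1, h2⟩ := (hev2.and self_mem_nhdsWithin).exists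
    exact ⟨η, h2, h1.le⟩
  obtain ⟨f, hf, hf1, hf2⟩ := h.app (min η1 η2) (by
    rcases min_choice η1 η2 with h | h <;> rw [h] <;> assumption)
  have hfs : ContDiff ℝ 1 f := hf.smooth.of_le (by exact_mod_cast le_top)
  have hfc : Continuous f := hfs.continuous
  have hfl : LocallyIntegrable ρ (volume : Measure (Sp n)) := hρint.locallyIntegrable
  refine ⟨fun x => ∫ t, ρ t • f (x - t), ?_, ?_, ?_⟩
  · have := hf.comp.contDiff_convolution_right (n := 1) (μ := volume)
      (ContinuousLinearMap.lsmul ℝ ℝ) hfl hfs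
    exact this
  · intro x
    have hi1 : Integrable fun t => ρ t • f (x - t) :=
      (hρs.continuous.smul (hfc.comp (continuous_const.sub continuous_id))).integrable_of_hasCompactSupport
        hρc.smul_right
    have hi2 : Integrable fun t => ρ t • φ (x - t) :=
      (hρs.continuous.smul (hφc.comp (continuous_const.sub continuous_id))).integrable_of_hasCompactSupport
        hρc.smul_right
    have hsub : (∫ t, ρ t • f (x - t)) - ∫ t, ρ t • φ (x - t) =
        ∫ t, ρ t • (f (x - t) - φ (x - t)) := by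
      rw [← integral_sub hi1 hi2]
      simp only [smul_sub]
    have hpt := moll_pt hp hρs.continuous hρ0 hρi hρint (G := fun x => f x - φ x)
      (hfc.sub hφc) x
    have hb : ∫⁻ t, ENNReal.ofReal (ρ t) * ‖f (x - t) - φ (x - t)‖ₑ ^ (n : ℝ) ≤
        ENNReal.ofReal (ε / 2) ^ (n : ℝ) := by
      calc ∫⁻ t, ENNReal.ofReal (ρ t) * ‖f (x - t) - φ (x - t)‖ₑ ^ (n : ℝ)
          ≤ ∫⁻ t, ENNReal.ofReal M * ‖f (x - t) - φ (x - t)‖ₑ ^ (n : ℝ) := by
            apply lintegral_mono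
            intro t
            have : ENNReal.ofReal (ρ t) ≤ ENNReal.ofReal M :=
              ENNReal.ofReal_le_ofReal ((le_abs_self _).trans (hM t))
            dsimp only
            gcongr
        _ = ENNReal.ofReal M * ∫⁻ t, ‖f (x - t) - φ (x - t)‖ₑ ^ (n : ℝ) :=
            lintegral_const_mul' _ _ ENNReal.ofReal_ne_top
        _ = ENNReal.ofReal M * ∫⁻ t, ‖f t - φ t‖ₑ ^ (n : ℝ) := by
            congr 1
            exact lintegral_sub_left_eq_self (fun t => ‖f t - φ t‖ₑ ^ (n : ℝ)) x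
        _ ≤ ENNReal.ofReal M * η1 ^ (n : ℝ) := by
            have e1 : ∫⁻ t, ‖f t - φ t‖ₑ ^ (n : ℝ) = ∫⁻ t, ‖φ t - f t‖ₑ ^ (n : ℝ) := by
              apply lintegral_congr
              intro t
              rw [← enorm_neg, neg_sub]
            rw [e1, hLp (fun t => φ t - f t)]
            gcongr
            exact hf1.trans (min_le_left _ _)
        _ ≤ _ := hη1'
    have h3 := (ENNReal.rpow_le_rpow_iff hn0).1 (hpt.trans hb)
    rw [← hsub, Real.enorm_eq_ofReal_abs, ENNReal.ofReal_le_ofReal_iff (by positivity)] at h3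
    have h4 := hclose x
    have h5 := abs_sub_le (∫ t, ρ t • f (x - t)) (∫ t, ρ t • φ (x - t)) (φ x)
    linarith
  · have hder : ∀ x, fderiv ℝ (fun x => ∫ t, ρ t • f (x - t)) x = ∫ t, ρ t • fderiv ℝ f (x - t) := by
      intro x
      have := (hf.comp.hasFDerivAt_convolution_right (μ := volume)
        (ContinuousLinearMap.lsmul ℝ ℝ) hfl hfs x).fderiv
      exact this
    simp only [hder]
    have hfd : Continuous (fderiv ℝ f) := hfs.continuous_fderiv one_ne_zero
    refine (moll_energy hp hρs.continuous hρ0 hρi hρint hfd).trans ?_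
    have e1 : ∀ x, ‖fderiv ℝ f x‖ₑ = ‖gradient f x‖ₑ := by
      intro x
      rw [← ofReal_norm_eq_enorm, ← ofReal_norm_eq_enorm]
      congr 1
      unfold gradient
      rw [LinearIsometryEquiv.norm_map]
    simp only [e1]
    rw [hLp (fun x => gradient f x), hLp Φ]
    refine le_trans ?_ hη2'
    apply ENNReal.rpow_le_rpow _ hn0.le
    have hgm : AEStronglyMeasurable (fun x => gradient f x) (volume : Measure (Sp n)) := by
      have : Continuous (gradient f) :=
        (InnerProductSpace.toDual ℝ (Sp n)).symm.continuous.comp hfd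
      exact this.aestronglyMeasurable
    have e2 : (fun x => gradient f x) = fun x => Φ x + -(Φ x - gradient f x) := by
      funext x
      abel
    have h6 : eLpNorm (fun x => Φ x + -(Φ x - gradient f x)) (ENNReal.ofReal (n : ℝ)) volume ≤
        eLpNorm Φ (ENNReal.ofReal (n : ℝ)) volume +
          eLpNorm (fun x => -(Φ x - gradient f x)) (ENNReal.ofReal (n : ℝ)) volume := by
      refine eLpNorm_add_le h.mU.aestronglyMeasurable
        (h.mU.aestronglyMeasurable.sub hgm).neg ?_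
      rw [← ENNReal.ofReal_one]
      exact ENNReal.ofReal_le_ofReal hp.le
    rw [e2]
    refine h6.trans ?_
    have h7 : eLpNorm (fun x => -(Φ x - gradient f x)) (ENNReal.ofReal (n : ℝ)) volume =
        eLpNorm (fun x => Φ x - gradient f x) (ENNReal.ofReal (n : ℝ)) volume :=
      eLpNorm_neg (fun x => Φ x - gradient f x) _ _
    rw [h7]
    gcongr
    exact hf2.trans (min_le_right _ _)

/-- mollification of a continuous compactly supported Sobolev function: uniformly close C¹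
functions with no more energy (as posted; see `mollify_H0_strong` for the intended form) -/
theorem mollify_H0 {n : ℕ} (hn : 2 ≤ n) {φ : Sp n → ℝ} {Φ : Sp n → Sp n} (hφc : Continuous φ)
    (hφ0 : HasCompactSupport φ) (h : Polar.H0 (n : ℝ) volume univ φ Φ) {ε : ℝ} (hε : 0 < ε) :
    ∃ ψ : Sp n → ℝ, ContDiff ℝ 1 ψ ∧ (∀ x, |ψ x - φ x| ≤ ε) ∧
      ∫⁻ x, ‖fderiv ℝ ψ x‖ₑ ^ (n : ℝ) ≤ ∫⁻ x, ‖Φ x‖ₑ ^ (n : ℝ) + ENNReal.ofReal ε := by
  obtain ⟨ψ, h1, h2, h3⟩ := mollify_H0_strong hn hφc hφ0 h hε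
  refine ⟨ψ, h1, h2, h3.trans (le_trans ?_ (le_lintegral_add _ _))⟩
  gcongr
  rw [lintegral_const]
  have hv : (volume : Measure (Sp n)) univ = ⊤ := by
    haveI : Nonempty (Fin n) := ⟨⟨0, by omega⟩⟩
    exact measure_univ_of_isAddLeftInvariant volume
  rw [hv, ENNReal.mul_top (by rw [ENNReal.ofReal_ne_zero_iff]; exact hε)]
  exact le_top

end Pool.Agent.Helper897.NHM
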