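import Pool.Agent.Helper897.NHM.Stmts2
open MeasureTheory Filter Topology Set Metric
open scoped ENNReal NNReal RealInnerProductSpace

namespace Pool.Agent.Helper897.NHM

open Pool.Agent.Helper533
open Pool.Agent.Helper80.NHM (Normal IsOpenMapOn IsLightOn LocFin EnergyInput)

theorem j17_ball_sub {n : ℕ} (hn : 2 ≤ n) {y y0 : Sp n} {ρ σ : ℝ} (hρ : 0 < ρ)
    (h : ball y ρ ⊆ ball y0 σ) : dist y y0 + ρ ≤ σ := by
  have hc : closedBall y ρ ⊆ closedBall y0 σ := by
    rw [← closure_ball y hρ.ne']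
    exact (closure_mono h).trans closure_ball_subset_closedBall
  obtain ⟨e, he, hy⟩ : ∃ e : Sp n, ‖e‖ = 1 ∧ y - y0 = dist y y0 • e := by
    by_cases hyy : y = y0
    · refine ⟨EuclideanSpace.single (⟨0, by omega⟩ : Fin n) (1 : ℝ), ?_, by simp [hyy]⟩
      simp
    · have hd : 0 < dist y y0 := dist_pos.2 hyy
      refine ⟨(dist y y0)⁻¹ • (y - y0), ?_, ?_⟩
      · rw [norm_smul, ← dist_eq_norm, Real.norm_eq_abs, abs_of_pos (inv_pos.2 hd),
          inv_mul_cancel₀ hd.ne']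
      · rw [smul_smul, mul_inv_cancel₀ hd.ne', one_smul]
  have hmem : y + ρ • e ∈ closedBall y ρ := by
    rw [mem_closedBall, dist_eq_norm, add_sub_cancel_left, norm_smul, he, mul_one,
      Real.norm_eq_abs, abs_of_pos hρ]
  have h1 := hc hmem
  rw [mem_closedBall, dist_eq_norm] at h1
  have e2 : y + ρ • e - y0 = (dist y y0 + ρ) • e := by
    rw [add_smul, ← hy]; abel
  have h2 : 0 ≤ dist y y0 + ρ := by positivity
  rw [e2, norm_smul, he, mul_one, Real.norm_eq_abs, abs_of_nonneg h2] at h1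
  exact h1

theorem partC_of {n : ℕ} (hn : 2 ≤ n) (hTop : AllTopA n) (hT : TopSmall n) (hR : ExistsRing n)
    (hK : Key n) (hC : Count n) (hTr : TrLH n) (hM : EnMono n) (hI : EnInt n)
    (hP : PotExist n) (hW : LHWeak n) : Pool.Agent.Helper80.NHM.PartC n := by
  intro α β α' β' Astar A hA1 hA2 G f hG _ hmor hopen hlight
  have hp1 : (1 : ℝ) < (n : ℝ) := by exact_mod_cast (by omega : 1 < n)
  have fcont : ContinuousOn f G := hmor.cont
  have top := hTop G f hG fcont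
  obtain ⟨C1, L0, hL0, hpot⟩ := hP α β α' β' Astar A hA1 hA2 G f hG hmor
  obtain ⟨C, hC0, hkey⟩ := hK α β C1 L0 hA1.pos hA1.le hL0
  set Λ := Lam L0 with hΛ
  have hΛ1 : Λ = L0 ^ 2 + 2 * L0 + 2 := rfl
  have hΛ2 : 2 * L0 ≤ Λ := by rw [hΛ1]; nlinarith
  have hΛ3 : 1 ≤ Λ := by linarith
  have hΛ0 : 0 < Λ := by linarith
  -- the common construction
  have main : ∀ x0 ∈ G, ∃ (s R : ℝ) (W0 U' : Set (Sp n)) (N : ℕ) (ω : Sp n → ℝ) (M : ℝ)
      (V : Sp n → Sp n) (b : ℝ), 0 < s ∧ 0 < R ∧ Λ * R = s / 4 ∧ R ≤ s / (8 * L0) ∧ R ≤ s ∧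
      PotInput C1 L0 Astar G f (f x0) s ∧
      RingPot C1 L0 Astar G f (f x0) s (f x0) R ω M V b ∧
      IsOpen W0 ∧ IsCompact (closure W0) ∧ closure W0 ⊆ G ∩ f ⁻¹' ball (f x0) s ∧
      (∀ w ∈ frontier W0, dist (f w) (f x0) = Λ * R) ∧
      (∀ z ∈ ball (f x0) (R / 8), (W0 ∩ f ⁻¹' {z}).encard ≤ N) ∧ U' ⊆ W0 ∧ x0 ∈ U' ∧
      Normal G f U' (f x0) (R / 8) := by
    intro x0 hx0
    obtain ⟨ε', hε', hball'⟩ := Metric.isOpen_iff.1 hG x0 hx0
    obtain ⟨s, hs, hsmall⟩ := hT G f hG fcont hlight top x0 hx0 ε' hε'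
    set R := s / (4 * Λ) with hRdef
    have hRpos : 0 < R := by positivity
    have hΛR : Λ * R = s / 4 := by rw [hRdef]; field_simp
    have hRle : R ≤ s / (8 * L0) := by
      rw [hRdef]
      apply div_le_div_of_nonneg_left hs.le (by linarith) (by linarith)
    have hRs : R ≤ s := by
      rw [hRdef]
      apply div_le_self hs.le (by linarith)
    have hcl : closure (U G f (f x0) (Λ * R) x0) ⊆ ball x0 ε' := hsmall _ (by linarith)
    have hclG : closure (U G f (f x0) (Λ * R) x0) ⊆ G := hcl.trans hball'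
    have hcomp : IsCompact (closure (U G f (f x0) (Λ * R) x0)) :=
      (isCompact_closedBall x0 ε').of_isClosed_subset isClosed_closure
        (hcl.trans ball_subset_closedBall)
    have hclos : closure (U G f (f x0) (Λ * R) x0) ⊆ G ∩ f ⁻¹' ball (f x0) s := by
      intro w hw
      refine ⟨hclG hw, ?_⟩
      have := top.clos _ _ _ hclG w hw
      show dist (f w) (f x0) < s
      linarith
    have hPI := hpot (f x0) s hs
    obtain ⟨ω, M, V, b, hring⟩ := hR C1 L0 Astar G f (f x0) s hL0 hPI (f x0)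
      (mem_closedBall_self (by positivity)) R hRpos hRle
    obtain ⟨N, hN⟩ := hC α β C1 L0 hA1.pos hA1.le hL0 Astar hA1.op G f (f x0) s hG fcont hopen
      hlight hPI x0 R ω M V b hring hΛR.le hcomp hclos
    have hx0W : x0 ∈ U G f (f x0) (Λ * R) x0 :=
      top.mem _ _ _ hx0 (by rw [dist_self]; positivity)
    have hsub : U G f (f x0) (R / 8) x0 ⊆ U G f (f x0) (Λ * R) x0 :=
      top.mono _ _ _ _ _ _ hx0W (ball_subset_ball (by nlinarith))
    have hclU : closure (U G f (f x0) (R / 8) x0) ⊆ closure (U G f (f x0) (Λ * R) x0) :=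
      closure_mono hsub
    refine ⟨s, R, U G f (f x0) (Λ * R) x0, U G f (f x0) (R / 8) x0, N, ω, M, V, b, hs, hRpos,
      hΛR, hRle, hRs, hPI, hring, top.isOpen _ _ _, hcomp, hclos,
      top.front _ _ _ hclG, hN, hsub, top.mem _ _ _ hx0 (by rw [dist_self]; positivity), ?_⟩
    refine ⟨by positivity, top.isOpen _ _ _, hcomp.of_isClosed_subset isClosed_closure hclU,
      hclU.trans hclG, fun x hx => (top.sub _ _ _ hx).2, fun x hx hx' => ?_⟩
    have h1 := top.front _ _ _ (hclU.trans hclG) x hx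
    rw [mem_ball, h1] at hx'
    exact lt_irrefl _ hx'
  constructor
  · intro x0 hx0
    obtain ⟨s, R, W0, U', N, ω, M, V, b, hs, hRpos, hΛR, hRle, hRs, hPI, hring, hW0, hcomp, hclos,
      hfront, hN, hsub, hx0U, hnorm⟩ := main x0 hx0
    refine ⟨U', R / 8, N, hx0U, hnorm, fun z => ?_⟩
    by_cases hz : z ∈ ball (f x0) (R / 8)
    · exact (encard_le_encard (inter_subset_inter_left _ hsub)).trans (hN z hz)
    · have : U' ∩ f ⁻¹' {z} = ∅ := by
        rw [Set.eq_empty_iff_forall_notMem]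
        rintro x ⟨hx1, hx2⟩
        apply hz
        have h1 : f x = z := hx2
        rw [← h1]
        exact hnorm.maps x hx1
      rw [this, encard_empty]
      exact zero_le
  · intro x0 hx0
    obtain ⟨s, R, W0, U', N, ω, M, V, b, hs, hRpos, hΛR, hRle, hRs, hPI, hring, hW0, hcomp, hclos,
      hfront, hN, hsub, hx0U, hnorm⟩ := main x0 hx0
    refine ⟨U', R / 8, 2 ^ n * (C * En W0 (fun x => ω (f x)) V b), L0, hx0U, hnorm, by linarith,
      fun y r hr hball => ?_⟩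
    have hL0r : 0 < L0 * r := by positivity
    have hd := j17_ball_sub hn hL0r hball
    have hdn : 0 ≤ dist y (f x0) := dist_nonneg
    have hy4 : y ∈ closedBall (f x0) (s / 4) := by
      rw [mem_closedBall]; nlinarith
    have hr8 : r ≤ s / (8 * L0) := by
      rw [le_div_iff₀ (by positivity)]
      nlinarith
    obtain ⟨ω₂, M₂, V₂, b₂, hring2⟩ := hR C1 L0 Astar G f (f x0) s hL0 hPI y hy4 r hr hr8
    have hDopen : IsOpen (G ∩ f ⁻¹' ball (f x0) s) := fcont.isOpen_inter_preimage hG isOpen_ball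
    have hUD : U' ⊆ G ∩ f ⁻¹' ball (f x0) s := (hsub.trans subset_closure).trans hclos
    have hLH1 := hTr (G ∩ f ⁻¹' ball (f x0) s) (fun x => ω₂ (f x)) V₂ (b₂ + 1 / 4) (b₂ + 3 / 4)
      hDopen hring2.pot.lh (by linarith)
    have hLH2 := (hLH1.const_mul 2).mono hUD hp1 hnorm.isOpen
    have hfr : ∀ x ∈ frontier W0, L0 * r ≤ dist (f x) y := by
      intro x hx
      have h1 := hfront x hx
      have h2 := dist_triangle (f x) y (f x0)
      have h3 : R ≤ Λ * R := by nlinarith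
      linarith
    have hint := hI C1 L0 Astar G f (f x0) s y r ω₂ M₂ V₂ b₂ hG fcont hring2 W0 hW0 hcomp hclos hfr
    have hk := hkey Astar hA1.op G f (f x0) s hG fcont (f x0) R ω M V b hring y r ω₂ M₂ V₂ b₂
      hring2 W0 hW0 hcomp hclos (fun x hx => (hfront x hx).ge) (by linarith) hΛR.le
    have hHeq : ∀ x ∈ U', ‖(2 : ℝ) • ({x | b₂ + 1 / 4 < ω₂ (f x) ∧ ω₂ (f x) ≤ b₂ + 3 / 4}.indicator
        V₂ x)‖ ^ n = 2 ^ n * ‖trG W0 (fun x => ω₂ (f x)) V₂ (b₂ + 1 / 4) (b₂ + 3 / 4) x‖ ^ (n : ℝ) := by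
      intro x hx
      have hxW := hsub hx
      have e1 : trG W0 (fun x => ω₂ (f x)) V₂ (b₂ + 1 / 4) (b₂ + 3 / 4) x =
          ({x | b₂ + 1 / 4 < ω₂ (f x) ∧ ω₂ (f x) ≤ b₂ + 3 / 4}.indicator V₂ x) := by
        unfold trG
        by_cases hxS : x ∈ {x | b₂ + 1 / 4 < ω₂ (f x) ∧ ω₂ (f x) ≤ b₂ + 3 / 4}
        · rw [indicator_of_mem (show x ∈ W0 ∩ _ from ⟨hxW, hxS⟩), indicator_of_mem hxS]
        · rw [indicator_of_notMem (fun h => hxS h.2), indicator_of_notMem hxS]
      rw [e1, norm_smul, mul_pow, Real.rpow_natCast]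
      simp
    refine ⟨fun w => 2 * min (max (ω₂ w - (b₂ + 1 / 4)) 0) ((b₂ + 3 / 4) - (b₂ + 1 / 4)),
      fun x => (2 : ℝ) • ({x | b₂ + 1 / 4 < ω₂ (f x) ∧ ω₂ (f x) ≤ b₂ + 3 / 4}.indicator V₂ x),
      ?_, ?_, ?_, ?_, ?_, ?_, ?_⟩
    · have := hring2.pot.cont
      fun_prop
    · intro z
      have h1 : 0 ≤ min (max (ω₂ z - (b₂ + 1 / 4)) 0) ((b₂ + 3 / 4) - (b₂ + 1 / 4)) :=
        le_min (le_max_right _ _) (by linarith)
      have h2 : min (max (ω₂ z - (b₂ + 1 / 4)) 0) ((b₂ + 3 / 4) - (b₂ + 1 / 4)) ≤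
        (b₂ + 3 / 4) - (b₂ + 1 / 4) := min_le_right _ _
      constructor
      · linarith
      · linarith
    · intro z hz
      have h1 := hring2.inn z (le_of_lt hz)
      show 2 * min (max (ω₂ z - (b₂ + 1 / 4)) 0) ((b₂ + 3 / 4) - (b₂ + 1 / 4)) = 1
      rw [min_eq_right]
      · ring
      · exact le_max_of_le_left (by linarith)
    · intro z hz
      rw [mem_ball, not_lt] at hz
      have h1 := hring2.out z hz
      show 2 * min (max (ω₂ z - (b₂ + 1 / 4)) 0) ((b₂ + 3 / 4) - (b₂ + 1 / 4)) = 0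
      rw [max_eq_right (by linarith), min_eq_left (by linarith), mul_zero]
    · exact hW U' _ _ hnorm.isOpen hLH2
    · have h1 : IntegrableOn (fun x => 2 ^ n * ‖trG W0 (fun x => ω₂ (f x)) V₂ (b₂ + 1 / 4)
          (b₂ + 3 / 4) x‖ ^ (n : ℝ)) U' := (hint.const_mul _).integrableOn
      exact h1.congr_fun (fun x hx => (hHeq x hx).symm) hnorm.isOpen.measurableSet
    · rw [setIntegral_congr_fun hnorm.isOpen.measurableSet hHeq, integral_const_mul]
      apply mul_le_mul_of_nonneg_left _ (by positivity)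
      refine le_trans ?_ hk
      exact setIntegral_le_integral hint (Eventually.of_forall fun x => by positivity)

end Pool.Agent.Helper897.NHM
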