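import Pool.Agent.Helper897.NHM.Stmts
open MeasureTheory Filter Topology Set Metric
open scoped ENNReal NNReal RealInnerProductSpace

namespace Pool.Agent.Helper897.NHM

open Pool.Agent.Helper533
open Pool.Agent.Helper80.NHM (Normal IsOpenMapOn IsLightOn LocFin EnergyInput)

lemma shrink_front {n : ℕ} (G : Set (Sp n)) (f : Sp n → Sp n) (hG : IsOpen G)
    (hf : ContinuousOn f G) (z : Sp n) (s : ℝ) (x : Sp n) (hc : closure (U G f z s x) ⊆ G)
    (w : Sp n) (hw : w ∈ frontier (U G f z s x)) : s ≤ dist (f w) z := by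
  have hO : IsOpen (G ∩ f ⁻¹' ball z s) := hf.isOpen_inter_preimage hG isOpen_ball
  by_contra hlt
  push Not at hlt
  have hwG : w ∈ G := hc (frontier_subset_closure hw)
  have hwO : w ∈ G ∩ f ⁻¹' ball z s := ⟨hwG, mem_ball.mpr hlt⟩
  have hCo : IsOpen (connectedComponentIn (G ∩ f ⁻¹' ball z s) w) :=
    hO.connectedComponentIn
  have hwC : w ∈ connectedComponentIn (G ∩ f ⁻¹' ball z s) w :=
    mem_connectedComponentIn hwO
  obtain ⟨y, hyC, hyW⟩ := mem_closure_iff.mp (frontier_subset_closure hw) _ hCo hwC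
  have e1 := connectedComponentIn_eq hyC
  have hyW' : y ∈ connectedComponentIn (G ∩ f ⁻¹' ball z s) x := hyW
  have e2 := connectedComponentIn_eq hyW'
  have hwW : w ∈ U G f z s x := by
    unfold U
    rw [e2, ← e1]; exact hwC
  have hWo : IsOpen (U G f z s x) := by unfold U; exact hO.connectedComponentIn
  have : w ∈ interior (U G f z s x) := by rw [hWo.interior_eq]; exact hwW
  exact hw.2 this

lemma shrink_en {n : ℕ} (W : Set (Sp n)) (v : Sp n → ℝ) (V : Sp n → Sp n) (b : ℝ) :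
    ∫ w, ‖(2 : ℝ) • trG W v V (b + 1 / 4) (b + 3 / 4) w‖ ^ (n : ℝ) = 2 ^ n * En W v V b := by
  rw [En, ← integral_const_mul]
  congr 1
  funext w
  rw [norm_smul, Real.mul_rpow (norm_nonneg _) (norm_nonneg _), Real.norm_eq_abs,
    abs_of_pos (by norm_num : (0 : ℝ) < 2), Real.rpow_natCast 2 n]

lemma shrink_abs {n : ℕ} (τ cL : ℝ) (hcL : 0 < cL)
    (hL' : ∀ (x : Sp n) (D : ℝ) (φ : Sp n → ℝ) (Φ : Sp n → Sp n), 0 < D → Continuous φ →
      Polar.H0 (n : ℝ) volume univ φ Φ → (∀ w, D < dist w x → φ w = 0) →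
      ∀ E : Set (Sp n), IsPreconnected E → (∀ w ∈ E, 1 ≤ φ w) → ∀ e ∈ E, ∀ e' ∈ E,
        τ * D ≤ dist e e' → cL ≤ ∫ w, ‖Φ w‖ ^ (n : ℝ))
    (hT : TrH0 n) (D0 W E : Set (Sp n)) (v : Sp n → ℝ) (V : Sp n → Sp n) (b : ℝ) (hD0 : IsOpen D0)
    (hW : IsOpen W) (hv : ContinuousOn v D0) (hLH : Polar.LH (n : ℝ) volume D0 v V)
    (hcomp : IsCompact (closure W)) (hclos : closure W ⊆ D0) (hfr : ∀ x ∈ frontier W, v x ≤ b)
    (x : Sp n) (D : ℝ) (hD : 0 < D) (hWD : W ⊆ closedBall x D) (hEW : E ⊆ W)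
    (hE : IsPreconnected E) (hxE : x ∈ E) (hvE : ∀ w ∈ E, b + 1 ≤ v w)
    (hEn : En W v V b < cL / 2 ^ n) : E ⊆ closedBall x (τ * D) := by
  obtain ⟨hc, hH, -⟩ := hT D0 W v V b (b + 1 / 4) (b + 3 / 4)
    hD0 hW hv hLH hcomp hclos hfr (by linarith) (by linarith)
  have hH2 := (hH.mono (subset_univ W)).const_mul 2
  intro e' he'
  rw [mem_closedBall]
  by_contra hlt
  push Not at hlt
  have z1 : ∀ w, D < dist w x → 2 * tr W v (b + 1 / 4) (b + 3 / 4) w = 0 := by
    intro w hw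
    have : w ∉ W := fun h => by
      have := mem_closedBall.mp (hWD h)
      linarith
    simp only [tr]
    rw [indicator_of_notMem this, mul_zero]
  have z2 : ∀ w ∈ E, 1 ≤ 2 * tr W v (b + 1 / 4) (b + 3 / 4) w := by
    intro w hw
    have h3 := hvE w hw
    simp only [tr]
    rw [indicator_of_mem (hEW hw)]
    have h4 : min (max (v w - (b + 1 / 4)) 0) (b + 3 / 4 - (b + 1 / 4)) = 1 / 2 := by
      rw [max_eq_left (by linarith), min_eq_right (by linarith)]; ring
    rw [h4]; norm_num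
  have hfin := hL' x D (fun x => 2 * tr W v (b + 1 / 4) (b + 3 / 4) x)
    (fun x => (2 : ℝ) • trG W v V (b + 1 / 4) (b + 3 / 4) x) hD
    (continuous_const.mul hc) hH2 z1 E hE z2
    x hxE e' he' (by rw [dist_comm]; exact hlt.le)
  rw [shrink_en] at hfin
  rw [lt_div_iff₀ (by positivity)] at hEn
  linarith

theorem shrink {n : ℕ} (hn : 2 ≤ n) (hL : Loewner n) (hT : TrH0 n) : Shrink n := by
  intro τ hτ
  obtain ⟨cL, hcL, hL'⟩ := hL τ hτ
  refine ⟨cL / 2 ^ n, by positivity, ?_⟩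
  intro C1 L0 Ast G f y0 s hL0 hG hf z r ω M V b hR x D hxG hxz hD hcomp hclos hWD hEn
  have hr := hR.rpos
  have hO : IsOpen (G ∩ f ⁻¹' ball z (L0 * r)) := hf.isOpen_inter_preimage hG isOpen_ball
  have hDo : IsOpen (G ∩ f ⁻¹' ball y0 s) := hf.isOpen_inter_preimage hG isOpen_ball
  have hWo : IsOpen (U G f z (L0 * r) x) := by unfold U; exact hO.connectedComponentIn
  have hrL : r ≤ L0 * r := by nlinarith
  have hEW : U G f z r x ⊆ U G f z (L0 * r) x := by
    exact connectedComponentIn_mono x (inter_subset_inter_right _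
      (preimage_mono (ball_subset_ball hrL)))
  have hfront : ∀ w ∈ frontier (U G f z (L0 * r) x), ω (f w) ≤ b := by
    intro w hw
    exact hR.out _ (shrink_front G f hG hf z (L0 * r) x
      (hclos.trans inter_subset_left) w hw)
  have hvc : ContinuousOn (fun x => ω (f x)) (G ∩ f ⁻¹' ball y0 s) :=
    hR.pot.cont.comp_continuousOn (hf.mono inter_subset_left)
  have hin : ∀ w ∈ U G f z r x, b + 1 ≤ ω (f w) := by
    intro w hw
    have h1 : w ∈ G ∩ f ⁻¹' ball z r := connectedComponentIn_subset _ _ hw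
    have h2 : dist (f w) z < r := mem_ball.mp h1.2
    exact hR.inn (f w) h2.le
  exact shrink_abs τ cL hcL hL' hT _ _ _ (fun x => ω (f x)) V b hDo hWo hvc hR.pot.lh hcomp
    hclos hfront x D hD hWD hEW isPreconnected_connectedComponentIn
    (mem_connectedComponentIn ⟨hxG, mem_ball.mpr hxz⟩) hin hEn

end Pool.Agent.Helper897.NHM
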