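import Pool.Agent.Helper897.NHM.Stmts
open MeasureTheory Filter Topology Set Metric
open scoped ENNReal NNReal RealInnerProductSpace

namespace Pool.Agent.Helper897.NHM

open Pool.Agent.Helper533
open Pool.Agent.Helper80.NHM (Normal IsOpenMapOn IsLightOn LocFin EnergyInput)

theorem topOnto {n : ℕ} : TopOnto n := by
  intro G f hG hf hop hT z s x hc hcl hx hd
  have hWo : IsOpen (U G f z s x) := hT.isOpen z s x
  have hWsub : U G f z s x ⊆ G ∩ f ⁻¹' ball z s := hT.sub z s x
  have hxW : x ∈ U G f z s x := hT.mem z s x hx hd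
  have h1 : IsOpen (f '' U G f z s x) := hop _ (hWsub.trans inter_subset_left) hWo
  have h2 : IsClosed (f '' closure (U G f z s x)) :=
    (hc.image_of_continuousOn (hf.mono hcl)).isClosed
  have h3 : f '' U G f z s x ⊆ ball z s := by
    rintro _ ⟨w, hw, rfl⟩
    exact (hWsub hw).2
  have h4 : ball z s ⊆ f '' U G f z s x ∪ (f '' closure (U G f z s x))ᶜ := by
    intro y hy
    by_cases hy2 : y ∈ f '' closure (U G f z s x)
    · left
      obtain ⟨w, hw, rfl⟩ := hy2
      by_cases hwW : w ∈ U G f z s x
      · exact ⟨w, hwW, rfl⟩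
      · exfalso
        have hfr : w ∈ frontier (U G f z s x) := by
          rw [hWo.frontier_eq]
          exact ⟨hw, hwW⟩
        have := hT.front z s x hcl w hfr
        rw [mem_ball] at hy
        linarith
    · right
      exact hy2
  have hpc : IsPreconnected (ball z s) := (convex_ball z s).isPreconnected
  have hdis : Disjoint (f '' U G f z s x) (f '' closure (U G f z s x))ᶜ :=
    disjoint_compl_right_iff_subset.2 (image_mono subset_closure)
  refine Subset.antisymm h3 ?_
  exact hpc.subset_left_of_subset_union h1 h2.isOpen_compl hdis h4 ⟨f x, hd, ⟨x, hxW, rfl⟩⟩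

end Pool.Agent.Helper897.NHM
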