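import Pool.Agent.Helper897.NHM.Stmts
open MeasureTheory Filter Topology Set Metric
open scoped ENNReal NNReal RealInnerProductSpace

namespace Pool.Agent.Helper897.NHM

open Pool.Agent.Helper533
open Pool.Agent.Helper80.NHM (Normal IsOpenMapOn IsLightOn LocFin EnergyInput)

theorem topSmall_sep {E : Type*} [MetricSpace E] {F : Set E} (hF : IsCompact F)
    (htd : IsTotallyDisconnected F) {x : E} (hx : x ∈ F) {ρ : ℝ} (hρ : 0 < ρ) :
    ∃ O : Set E, IsOpen O ∧ x ∈ O ∧ closure O ⊆ ball x ρ ∧ ∀ w ∈ frontier O, w ∉ F := by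
  have : CompactSpace F := isCompact_iff_compactSpace.1 hF
  have : TotallyDisconnectedSpace F := totallyDisconnectedSpace_subtype_iff.2 htd
  have hW : IsOpen {y : F | dist (y : E) x < ρ} :=
    isOpen_lt (continuous_subtype_val.dist continuous_const) continuous_const
  obtain ⟨V, hV, hxV, hVW⟩ := compact_exists_isClopen_in_isOpen hW
    (show (⟨x, hx⟩ : F) ∈ {y : F | dist (y : E) x < ρ} by simpa using hρ)
  have hC : IsCompact (Subtype.val '' V : Set E) := hV.1.isCompact.image continuous_subtype_val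
  have hC' : IsCompact (Subtype.val '' Vᶜ : Set E) :=
    hV.2.isClosed_compl.isCompact.image continuous_subtype_val
  have hsub : (Subtype.val '' V : Set E) ⊆ ball x ρ ∩ (Subtype.val '' Vᶜ)ᶜ := by
    rintro _ ⟨y, hy, rfl⟩
    refine ⟨hVW hy, ?_⟩
    rintro ⟨z, hz, hzy⟩
    exact hz (Subtype.ext hzy ▸ hy)
  obtain ⟨δ, hδ, hδ'⟩ := hC.exists_cthickening_subset_open
    (isOpen_ball.inter hC'.isClosed.isOpen_compl) hsub
  have hcl : closure (thickening δ (Subtype.val '' V : Set E)) ⊆
      ball x ρ ∩ (Subtype.val '' Vᶜ)ᶜ :=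
    (closure_thickening_subset_cthickening δ _).trans hδ'
  have hCO : (Subtype.val '' V : Set E) ⊆ thickening δ (Subtype.val '' V : Set E) :=
    self_subset_thickening hδ _
  refine ⟨thickening δ (Subtype.val '' V : Set E), isOpen_thickening, hCO ⟨_, hxV, rfl⟩,
    hcl.trans inter_subset_left, ?_⟩
  intro w hw hwF
  rw [isOpen_thickening.frontier_eq] at hw
  have h1 := (hcl hw.1).2
  by_cases hwV : (⟨w, hwF⟩ : F) ∈ V
  · exact hw.2 (hCO ⟨_, hwV, rfl⟩)
  · exact h1 ⟨_, hwV, rfl⟩

theorem topSmall_aux {E E' : Type*} [MetricSpace E] [ProperSpace E] [MetricSpace E']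
    (G : Set E) (f : E → E') (hG : IsOpen G) (hf : ContinuousOn f G)
    (hl : ∀ K ⊆ G, IsPreconnected K → (∀ x ∈ K, ∀ y ∈ K, f x = f y) → K.Subsingleton)
    (x : E) (hx : x ∈ G) (ε : ℝ) (hε : 0 < ε) : ∃ s0 : ℝ, 0 < s0 ∧ ∀ s : ℝ, s ≤ s0 →
      closure (connectedComponentIn (G ∩ f ⁻¹' ball (f x) s) x) ⊆ ball x ε := by
  obtain ⟨r, hr, hrG⟩ := Metric.isOpen_iff.1 hG x hx
  set ρ := min (r / 2) (ε / 2) with hρdef
  have hρ : 0 < ρ := lt_min (by linarith) (by linarith)
  have hρr : ρ < r := (min_le_left _ _).trans_lt (by linarith)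
  have hρε : ρ < ε := (min_le_right _ _).trans_lt (by linarith)
  have hcb : closedBall x ρ ⊆ G := (closedBall_subset_ball hρr).trans hrG
  have hfc : ContinuousOn f (closedBall x ρ) := hf.mono hcb
  have hFc : IsCompact (closedBall x ρ ∩ f ⁻¹' {f x}) :=
    (isCompact_closedBall x ρ).of_isClosed_subset
      (hfc.preimage_isClosed_of_isClosed isClosed_closedBall isClosed_singleton) inter_subset_left
  have htd : IsTotallyDisconnected (closedBall x ρ ∩ f ⁻¹' {f x}) := by
    intro K hK hKc
    apply hl K ((hK.trans inter_subset_left).trans hcb) hKc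
    intro a ha b hb
    have h1 : f a = f x := (hK ha).2
    have h2 : f b = f x := (hK hb).2
    rw [h1, h2]
  obtain ⟨O, hO, hxO, hOc, hfr⟩ := topSmall_sep hFc htd
    (show x ∈ closedBall x ρ ∩ f ⁻¹' {f x} from ⟨mem_closedBall_self hρ.le, rfl⟩) hρ
  have hfrG : frontier O ⊆ closedBall x ρ := fun w hw => ball_subset_closedBall (hOc hw.1)
  have hfrc : IsCompact (frontier O) :=
    (isCompact_closedBall x ρ).of_isClosed_subset isClosed_frontier hfrG
  have hne : ∀ w ∈ frontier O, f w ≠ f x := fun w hw h => hfr w hw ⟨hfrG hw, h⟩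
  obtain ⟨m, hm, hmin⟩ : ∃ m : ℝ, 0 < m ∧ ∀ w ∈ frontier O, m ≤ dist (f w) (f x) := by
    rcases (frontier O).eq_empty_or_nonempty with h | h
    · exact ⟨1, one_pos, fun w hw => by rw [h] at hw; exact absurd hw (notMem_empty w)⟩
    · have hfd : ContinuousOn (fun w => dist (f w) (f x)) (frontier O) :=
        (continuous_id.dist continuous_const :
          Continuous fun y => dist y (f x)).comp_continuousOn (hfc.mono hfrG)
      obtain ⟨w0, hw0, hw0'⟩ := hfrc.exists_isMinOn h hfd
      exact ⟨dist (f w0) (f x), dist_pos.2 (hne w0 hw0), fun w hw => hw0' hw⟩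
  refine ⟨m, hm, fun s hs => ?_⟩
  by_cases hxs : x ∈ G ∩ f ⁻¹' ball (f x) s
  · have hsubO : connectedComponentIn (G ∩ f ⁻¹' ball (f x) s) x ⊆ O := by
      apply IsPreconnected.subset_left_of_subset_union hO
        (isClosed_closure (s := O)).isOpen_compl
        (disjoint_left.2 fun a ha hb => hb (subset_closure ha)) _
        ⟨x, mem_connectedComponentIn hxs, hxO⟩ isPreconnected_connectedComponentIn
      intro w hw
      by_cases hwO : w ∈ O
      · exact Or.inl hwO
      · right
        intro hwc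
        have hwf : w ∈ frontier O := by
          rw [hO.frontier_eq]
          exact ⟨hwc, hwO⟩
        have h1 := hmin w hwf
        have h2 := (connectedComponentIn_subset _ _ hw).2
        have h3 : dist (f w) (f x) < s := h2
        linarith
    exact (closure_mono hsubO).trans (hOc.trans (ball_subset_ball hρε.le))
  · rw [connectedComponentIn_eq_empty hxs, closure_empty]
    exact empty_subset _

theorem topSmall {n : ℕ} : TopSmall n := by
  intro G f hG hf hl _ x hx ε hε
  exact topSmall_aux G f hG hf hl x hx ε hε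

end Pool.Agent.Helper897.NHM
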