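import Pool.Agent.Helper897.NHM.Stmts
open MeasureTheory Filter Topology Set Metric
open scoped ENNReal NNReal RealInnerProductSpace

namespace Pool.Agent.Helper897.NHM

open Pool.Agent.Helper533
open Pool.Agent.Helper80.NHM (Normal IsOpenMapOn IsLightOn LocFin EnergyInput)

/-- positive part of `v - b` in the local class -/
theorem trH0_pos {n : ℕ} (hp : (1 : ℝ) < (n : ℝ)) {W : Set (Sp n)} (hW : IsOpen W)
    {v : Sp n → ℝ} {V : Sp n → Sp n} (h : Polar.LH (n : ℝ) volume W v V) (b : ℝ) :
    Polar.LH (n : ℝ) (volume : Measure (Sp n)) W (fun x => max ((v x - b) - 0) 0)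
      (fun x => (if 0 < v x - b then (1 : ℝ) else 0) • (V x - (0 : Sp n))) := by
  obtain ⟨β', b1, b2, b3, b4, b5, b6, b7⟩ := Polar.exists_profile 0 le_rfl
  have hL1 : Polar.LH (n : ℝ) (volume : Measure (Sp n)) W (fun x => v x - b)
      (fun x => V x - (0 : Sp n)) :=
    Polar.LH.sub hp h (Polar.LH.const b)
  exact Polar.LH.chain_lim hp hW (β := fun t => max (t - 0) 0)
    (b := fun t => if 0 < t then (1 : ℝ) else 0) (βk := β') b1
    (C := 1) (fun j t => by rw [abs_of_nonneg (b4 j t).1]; exact (b4 j t).2) b5 b6 hL1

theorem trH0 {n : ℕ} (hn : 2 ≤ n) : TrH0 n := by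
  intro D W v V b' b c hD hW hv hL hWc hWD hfr hb' hbc
  have hp : (1 : ℝ) < (n : ℝ) := by
    have : (2 : ℝ) ≤ (n : ℝ) := by exact_mod_cast hn
    linarith
  have hWsub : W ⊆ D := subset_closure.trans hWD
  obtain ⟨K, hK⟩ : ∃ K : Set (Sp n), K = closure W ∩ v ⁻¹' (Ici b) := ⟨_, rfl⟩
  have hKc : IsCompact K := by
    rw [hK]
    exact hWc.of_isClosed_subset
      ((hv.mono hWD).preimage_isClosed_of_isClosed isClosed_closure isClosed_Ici) inter_subset_left
  have hKW : K ⊆ W := by
    rw [hK]
    rintro x ⟨hx1, hx2⟩
    by_contra hxW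
    have hx3 : x ∈ frontier W := by
      rw [hW.frontier_eq]
      exact ⟨hx1, hxW⟩
    have hx4 := hfr x hx3
    have hx5 : b ≤ v x := hx2
    linarith
  have hoff : ∀ x, x ∉ K → tr W v b c x = 0 ∧ trG W v V b c x = 0 := by
    intro x hx
    constructor
    · unfold tr
      by_cases hxW : x ∈ W
      · rw [indicator_of_mem hxW]
        have h1 : v x - b ≤ 0 := by
          by_contra hcon
          push Not at hcon
          apply hx
          rw [hK]
          refine ⟨subset_closure hxW, ?_⟩
          show b ≤ v x
          linarith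
        rw [max_eq_right h1]
        exact min_eq_left (by linarith)
      · rw [indicator_of_notMem hxW]
    · unfold trG
      apply indicator_of_notMem
      rintro ⟨hxW, hx1, hx2⟩
      apply hx
      rw [hK]
      exact ⟨subset_closure hxW, le_of_lt hx1⟩
  have hcont : Continuous (tr W v b c) := by
    rw [continuous_iff_continuousAt]
    intro x
    by_cases hxW : x ∈ W
    · have h1 : ContinuousAt (fun x => min (max (v x - b) 0) (c - b)) x := by
        have h2 : ContinuousAt v x := (hv.mono hWsub).continuousAt (hW.mem_nhds hxW)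
        fun_prop
      refine h1.congr ?_
      filter_upwards [hW.mem_nhds hxW] with y hy
      unfold tr
      rw [indicator_of_mem hy]
    · have hxK : x ∈ Kᶜ := fun h => hxW (hKW h)
      have h1 : ContinuousAt (fun _ : Sp n => (0 : ℝ)) x := continuousAt_const
      refine h1.congr ?_
      filter_upwards [hKc.isClosed.isOpen_compl.mem_nhds hxK] with y hy
      exact ((hoff y hy).1).symm
  refine ⟨hcont, ?_, K, hKc, hKW, hoff⟩
  have hLW : Polar.LH (n : ℝ) volume W v V := Polar.LH.mono hL hWsub hp hW
  have hd := Polar.LH.sub hp (trH0_pos hp hW hLW b) (trH0_pos hp hW hLW c)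
  have hL3 : Polar.LH (n : ℝ) (volume : Measure (Sp n)) W (tr W v b c) (trG W v V b c) := by
    refine hd.congr (Eventually.of_forall fun x hx => ?_) (Eventually.of_forall fun x hx => ?_)
    · unfold tr
      rw [indicator_of_mem hx, sub_zero, sub_zero]
      rcases le_or_gt (v x) b with h1 | h1
      · rw [max_eq_right (by linarith : v x - b ≤ 0), max_eq_right (by linarith : v x - c ≤ 0),
          min_eq_left (by linarith), sub_zero]
      · rw [max_eq_left (by linarith : 0 ≤ v x - b)]
        rcases le_or_gt (v x) c with h2 | h2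
        · rw [max_eq_right (by linarith : v x - c ≤ 0), min_eq_left (by linarith), sub_zero]
        · rw [max_eq_left (by linarith : 0 ≤ v x - c), min_eq_right (by linarith)]
          ring
    · unfold trG
      rw [sub_zero]
      by_cases h1 : b < v x
      · rw [if_pos (by linarith : 0 < v x - b), one_smul]
        by_cases h2 : v x ≤ c
        · rw [indicator_of_mem (show x ∈ W ∩ {x | b < v x ∧ v x ≤ c} from ⟨hx, h1, h2⟩),
            if_neg (by linarith), zero_smul, sub_zero]
        · rw [indicator_of_notMem (show x ∉ W ∩ {x | b < v x ∧ v x ≤ c} from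
              fun h => h2 h.2.2), if_pos (by push Not at h2; linarith), one_smul, sub_self]
      · push Not at h1
        rw [indicator_of_notMem (show x ∉ W ∩ {x | b < v x ∧ v x ≤ c} from
              fun h => absurd h.2.1 (not_lt.mpr h1)), if_neg (by linarith), if_neg (by linarith),
              zero_smul, sub_zero]
  exact Polar.LH.toH0 hL3 hW hKc hKW (Eventually.of_forall fun x hx => (hoff x hx).1)
    (Eventually.of_forall fun x hx => (hoff x hx).2)

end Pool.Agent.Helper897.NHM
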