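import Pool.Agent.Helper897.NHM.Stmts2
open MeasureTheory Filter Topology Set Metric
open scoped ENNReal NNReal RealInnerProductSpace

namespace Pool.Agent.Helper897.NHM

open Pool.Agent.Helper533
open Pool.Agent.Helper80.NHM (Normal IsOpenMapOn IsLightOn LocFin EnergyInput)

theorem trLH {n : ℕ} (hn : 2 ≤ n) : TrLH n := by
  intro D v V b c hD hLH hbc
  have hp : (1 : ℝ) < n := by
    have : (2 : ℝ) ≤ n := by exact_mod_cast hn
    linarith
  have h1 := Polar.LH.pos_diff hp hD
    (Polar.LH.const (p := (n : ℝ)) (μ := (volume : Measure (Sp n))) (G := D) (b - 1)) hLH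
    (one_pos)
  have h2 := Polar.LH.pos_diff hp hD
    (Polar.LH.const (p := (n : ℝ)) (μ := (volume : Measure (Sp n))) (G := D) (c - 1)) hLH
    (one_pos)
  refine Polar.LH.congr (Polar.LH.sub hp h1 h2) ?_ ?_
  · refine Filter.Eventually.of_forall (fun x _ => ?_)
    show max (v x - (b - 1) - 1) 0 - max (v x - (c - 1) - 1) 0 = min (max (v x - b) 0) (c - b)
    have e1 : v x - (b - 1) - 1 = v x - b := by ring
    have e2 : v x - (c - 1) - 1 = v x - c := by ring
    rw [e1, e2]
    rcases le_total (v x) b with h | h
    · rw [max_eq_right (by linarith), max_eq_right (by linarith), min_eq_left (by linarith),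
        sub_zero]
    · rcases le_total (v x) c with h' | h'
      · rw [max_eq_left (by linarith), max_eq_right (by linarith), min_eq_left (by linarith),
          sub_zero]
      · rw [max_eq_left (by linarith), max_eq_left (by linarith), min_eq_right (by linarith)]
        ring
  · refine Filter.Eventually.of_forall (fun x _ => ?_)
    show (if 1 < v x - (b - 1) then (1 : ℝ) else 0) • (V x - 0) -
      (if 1 < v x - (c - 1) then (1 : ℝ) else 0) • (V x - 0) =
      ({x | b < v x ∧ v x ≤ c}.indicator V) x
    rw [sub_zero]
    by_cases h : b < v x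
    · by_cases h' : v x ≤ c
      · have hmem : x ∈ {x | b < v x ∧ v x ≤ c} := ⟨h, h'⟩
        rw [indicator_of_mem hmem, if_pos (by linarith), if_neg (by linarith)]
        simp
      · have hmem : x ∉ {x | b < v x ∧ v x ≤ c} := fun hx => h' hx.2
        rw [indicator_of_notMem hmem, if_pos (by linarith), if_pos (by linarith), sub_self]
    · have hmem : x ∉ {x | b < v x ∧ v x ≤ c} := fun hx => h hx.1
      rw [indicator_of_notMem hmem, if_neg (by linarith), if_neg (by linarith)]
      simp

end Pool.Agent.Helper897.NHM
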