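import Pool.Agent.Helper897.NHM.TopA
import Pool.Agent.Helper897.NHM.TopOnto
import Pool.Agent.Helper897.NHM.TopSmall
import Pool.Agent.Helper897.NHM.Mollify
import Pool.Agent.Helper897.NHM.Loewner
import Pool.Agent.Helper897.NHM.TrH0
import Pool.Agent.Helper897.NHM.FluxZero
import Pool.Agent.Helper897.NHM.KeyAbs
import Pool.Agent.Helper897.NHM.ExistsRing
import Pool.Agent.Helper897.NHM.Key
import Pool.Agent.Helper897.NHM.Shrink
import Pool.Agent.Helper897.NHM.EnLem
import Pool.Agent.Helper897.NHM.LowIter
import Pool.Agent.Helper897.NHM.Low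
import Pool.Agent.Helper897.NHM.Count
import Pool.Agent.Helper897.NHM.TrLH
import Pool.Agent.Helper897.NHM.PartCof
open MeasureTheory Filter Topology Set Metric
open scoped ENNReal NNReal RealInnerProductSpace

/-!
Part C of MP_fecf7d_an: an open light morphism is locally finite-to-one and has the energy bound,
from the existence of target potentials and their pull-backs (`PotExist`).
-/

namespace Pool.Agent.Helper897.NHM

theorem partC {n : ℕ} (hn : 2 ≤ n) (hP : PotExist n) (hW : LHWeak n) :
    Pool.Agent.Helper80.NHM.PartC n := by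
  have hTop : AllTopA n := fun G f hG hf => topA hG hf
  have hT : TrH0 n := trH0 hn
  have hKA : KeyAbs n := keyAbs hn hT (fluxZero hn)
  have hK : Key n := key hn hT hKA
  have hR : ExistsRing n := existsRing hn
  have hL : Loewner n := loewner hn fun φ Φ h1 h2 h3 ε hε => mollify_H0_strong hn h1 h2 h3 hε
  have hS : Shrink n := shrink hn hL hT
  have hM : EnMono n := fun W W' v V b hm hs hi => En_mono hn W W' v V b hm hs hi
  have hSum : EnSum n := fun S W Wi v V b hm hs hd hi => En_sum hn S W Wi v V b hm hs hd hi
  have hI : EnInt n := fun C1 L0 Ast G f y0 s z r ω M V b hG hf hRP W hWo hWc hWG hfr =>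
    En_int hn hT hG hf hRP hWo hWc hWG hfr
  have hLI : LowIter n := lowIter hn hTop hR hK hS hM hI
  have hLow : Low n := low hn hTop topOnto hLI
  have hC : Count n := count hn hTop topSmall hR hK hLow hSum hI
  exact partC_of hn hTop topSmall hR hK hC (trLH hn) hM hI hP hW

end Pool.Agent.Helper897.NHM
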