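import Pool.Agent.Helper80.NHM.Base
open MeasureTheory Filter Topology Set Metric
open scoped ENNReal NNReal RealInnerProductSpace

/-!
Definitions for part C of MP_fecf7d_an (multiplicity bound): components of preimages of balls,
pull-backs of target potentials, truncations.
-/

namespace Pool.Agent.Helper897.NHM

open Pool.Agent.Helper533
open Pool.Agent.Helper80.NHM (Normal IsOpenMapOn IsLightOn LocFin EnergyInput)

/-- `ℝⁿ` -/
abbrev Sp (n : ℕ) := EuclideanSpace ℝ (Fin n)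

variable {n : ℕ}

/-- the component of `G ∩ f⁻¹(B(z,s))` containing `x` -/
def U (G : Set (Sp n)) (f : Sp n → Sp n) (z : Sp n) (s : ℝ) (x : Sp n) : Set (Sp n) :=
  connectedComponentIn (G ∩ f ⁻¹' ball z s) x

/-- a target potential `ω` with pole `a`, inner radius `t`, in the outer ball `B(y0,s)`, together
with the properties of its pull-back `ω ∘ f`, whose weak gradient is `V` -/
structure SrcPot (C1 L0 : ℝ) (Ast : Sp n → Sp n → Sp n) (G : Set (Sp n)) (f : Sp n → Sp n)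
    (y0 : Sp n) (s : ℝ) (a : Sp n) (t : ℝ) (ω : Sp n → ℝ) (M : ℝ) (V : Sp n → Sp n) : Prop where
  cont : Continuous ω
  nonneg : ∀ w, 0 ≤ ω w
  le : ∀ w, ω w ≤ M
  top : ∀ w ∈ closedBall a t, ω w = M
  tp2 : ∀ R, t ≤ R → L0 * R ≤ s / 2 → ∀ w w', dist w a ≤ R → L0 * R ≤ dist w' a → ω w' + 1 ≤ ω w
  tp3 : ∀ R, t ≤ R → ∀ w w', R ≤ dist w a → dist w' a ≤ 2 * R → ω w ≤ ω w' + C1
  lh : Polar.LH (n : ℝ) volume (G ∩ f ⁻¹' ball y0 s) (fun x => ω (f x)) V
  harm : ∀ φ, Polar.Cc (G ∩ f ⁻¹' ball y0 s ∩ {x | ω (f x) < M}) φ →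
    ∫ x, ⟪Ast x (V x), gradient φ x⟫ = 0

/-- all the potentials in the outer ball `B(y0,s)` -/
def PotInput (C1 L0 : ℝ) (Ast : Sp n → Sp n → Sp n) (G : Set (Sp n)) (f : Sp n → Sp n)
    (y0 : Sp n) (s : ℝ) : Prop :=
  ∀ a ∈ closedBall y0 (s / 4), ∀ t, 0 < t → t ≤ s / (8 * L0) →
    ∃ ω M V, SrcPot C1 L0 Ast G f y0 s a t ω M V

/-- a potential with pole `z` and a level `b` separating `B(z,r)` from the exterior of
`B(z, L0 r)` -/
structure RingPot (C1 L0 : ℝ) (Ast : Sp n → Sp n → Sp n) (G : Set (Sp n)) (f : Sp n → Sp n)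
    (y0 : Sp n) (s : ℝ) (z : Sp n) (r : ℝ) (ω : Sp n → ℝ) (M : ℝ) (V : Sp n → Sp n) (b : ℝ) :
    Prop where
  rpos : 0 < r
  rle : r ≤ s / (8 * L0)
  pot : SrcPot C1 L0 Ast G f y0 s z (r / L0) ω M V
  bnn : 0 ≤ b
  inn : ∀ w, dist w z ≤ r → b + 1 ≤ ω w
  out : ∀ w, L0 * r ≤ dist w z → ω w ≤ b
  bM : b + 2 ≤ M

/-- truncation between the levels `b` and `c`, on the set `W` -/
noncomputable def tr (W : Set (Sp n)) (v : Sp n → ℝ) (b c : ℝ) : Sp n → ℝ :=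
  W.indicator (fun x => min (max (v x - b) 0) (c - b))

/-- gradient of the truncation -/
noncomputable def trG (W : Set (Sp n)) (v : Sp n → ℝ) (V : Sp n → Sp n) (b c : ℝ) : Sp n → Sp n :=
  (W ∩ {x | b < v x ∧ v x ≤ c}).indicator V

/-- energy of the truncation at the ring levels `b + 1/4`, `b + 3/4` -/
noncomputable def En (W : Set (Sp n)) (v : Sp n → ℝ) (V : Sp n → Sp n) (b : ℝ) : ℝ :=
  ∫ x, ‖trG W v V (b + 1 / 4) (b + 3 / 4) x‖ ^ (n : ℝ)

end Pool.Agent.Helper897.NHM
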