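import Pool.Agent.Helper897.NHM.Stmts2
open MeasureTheory Filter Topology Set Metric
open scoped ENNReal NNReal RealInnerProductSpace

namespace Pool.Agent.Helper897.NHM

open Pool.Agent.Helper533
open Pool.Agent.Helper80.NHM (Normal IsOpenMapOn IsLightOn LocFin EnergyInput)

theorem low {n : ℕ} (hn : 2 ≤ n) (hTop : AllTopA n) (hO : TopOnto n) (hL : LowIter n) :
    Low n := by
  intro α β C1 L0 hα hαβ hL0
  obtain ⟨ε, hε, H⟩ := hL α β C1 L0 hα hαβ hL0
  refine ⟨ε, hε, ?_⟩
  intro Ast hA G f y0 s hG hf hOpen hPot x R ω M V b hxG hRing hd hΛ hcomp hcl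
  by_contra hcon
  rw [not_le] at hcon
  have T := hTop G f hG hf
  have hR : 0 < R := hRing.rpos
  have hLam : 1 ≤ Lam L0 := by
    unfold Lam
    nlinarith
  set W := U G f (f x) (Lam L0 * R) x with hW
  have hΛR : R ≤ Lam L0 * R := by nlinarith
  have hclG : closure W ⊆ G := fun w hw => (hcl hw).1
  obtain ⟨D1, hD1⟩ := (hcomp.isBounded.subset subset_closure).subset_closedBall x
  set D0 : ℝ := max D1 1 with hD0def
  have hD0 : 0 < D0 := lt_of_lt_of_le one_pos (le_max_right _ _)
  have hWD0 : W ⊆ closedBall x D0 := hD1.trans (closedBall_subset_closedBall (le_max_left _ _))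
  have Hit := H Ast hA G f y0 s hG hf hPot x R ω M V b hxG hRing hd hΛ hcomp hcl hcon D0 hD0 hWD0
  obtain ⟨e, he⟩ : ∃ e : Sp n, ‖e‖ = 1 :=
    ⟨EuclideanSpace.single ⟨0, by omega⟩ (1 : ℝ), by simp⟩
  have key : ∀ m : ℕ, ∃ w : Sp n, f w = f x + (R / 8) • e ∧ dist w x ≤ 4 * D0 * (1 / 2) ^ m := by
    intro m
    have hLm : 1 ≤ L0 ^ m := one_le_pow₀ (by linarith)
    set N : ℕ := ⌈L0 ^ m⌉₊ with hN
    have hN1 : L0 ^ m ≤ N := Nat.le_ceil _
    have hN2 : (N : ℝ) < L0 ^ m + 1 := Nat.ceil_lt_add_one (by linarith)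
    have hN0 : (0 : ℝ) < N := by linarith
    set δ : ℝ := R / 8 / N with hδ
    have hδ0 : 0 < δ := by positivity
    have hLm' : (1 / L0) ^ m = 1 / L0 ^ m := by rw [one_div_pow]
    have hρ0 : 0 < R / 4 * (1 / L0) ^ m := by positivity
    have hδρ : δ < R / 4 * (1 / L0) ^ m := by
      rw [hLm']
      have h1 : δ ≤ R / 8 * (1 / L0 ^ m) := by
        rw [hδ, div_eq_mul_one_div (R / 8)]
        apply mul_le_mul_of_nonneg_left _ (by positivity)
        exact one_div_le_one_div_of_le (by linarith) hN1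
      have h2 : 0 < 1 / L0 ^ m := by positivity
      nlinarith
    have hρR : R / 4 * (1 / L0) ^ m ≤ R / 4 := by
      rw [hLm']
      have h2 : 1 / L0 ^ m ≤ 1 := by
        rw [div_le_one (by linarith)]
        exact hLm
      nlinarith
    have chain : ∀ i : ℕ, i ≤ N → ∃ w ∈ W, f w = f x + (i * δ) • e ∧
        dist w x ≤ i * (2 * D0 * (1 / (2 * L0)) ^ m) := by
      intro i
      induction i with
      | zero =>
        intro _
        refine ⟨x, T.mem (f x) (Lam L0 * R) x hxG (by rw [dist_self]; linarith), by simp, by simp⟩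
      | succ i ih =>
        intro hi
        obtain ⟨w, hwW, hfw, hdw⟩ := ih (by omega)
        have hwG : w ∈ G := (T.sub _ _ _ hwW).1
        have hiN : (i : ℝ) + 1 ≤ N := by exact_mod_cast hi
        have hdz : dist (f w) (f x) ≤ R / 8 := by
          rw [hfw, dist_self_add_left, norm_smul, he, mul_one, Real.norm_of_nonneg (by positivity)]
          have : (i : ℝ) * δ ≤ N * δ := mul_le_mul_of_nonneg_right (by linarith) hδ0.le
          have h3 : (N : ℝ) * δ = R / 8 := by
            rw [hδ]
            field_simp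
          linarith
        have hsub : ball (f w) (R / 4 * (1 / L0) ^ m) ⊆ ball (f x) (Lam L0 * R) := by
          apply ball_subset_ball'
          linarith
        have hUW : U G f (f w) (R / 4 * (1 / L0) ^ m) w ⊆ W :=
          T.mono _ _ _ _ _ w hwW hsub
        have hcU : closure (U G f (f w) (R / 4 * (1 / L0) ^ m) w) ⊆ closure W :=
          closure_mono hUW
        have honto := hO G f hG hf hOpen T (f w) (R / 4 * (1 / L0) ^ m) w
          (hcomp.of_isClosed_subset isClosed_closure hcU) (hcU.trans hclG) hwG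
          (by rw [dist_self]; exact hρ0)
        have hmem : f x + (((i + 1 : ℕ) : ℝ) * δ) • e ∈ ball (f w) (R / 4 * (1 / L0) ^ m) := by
          rw [mem_ball, hfw, dist_eq_norm]
          have h4 : f x + (((i + 1 : ℕ) : ℝ) * δ) • e - (f x + ((i : ℝ) * δ) • e) = δ • e := by
            push_cast
            module
          rw [h4, norm_smul, he, mul_one, Real.norm_of_nonneg hδ0.le]
          exact hδρ
        rw [← honto] at hmem
        obtain ⟨w', hw', hfw'⟩ := hmem
        refine ⟨w', hUW hw', hfw', ?_⟩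
        have h5 := Hit (f w) hdz w hwW m (by rw [dist_self]; exact hρ0) hw'
        rw [mem_closedBall] at h5
        have h6 := dist_triangle w' w x
        push_cast
        linarith
    obtain ⟨w, hwW, hfw, hdw⟩ := chain N le_rfl
    refine ⟨w, ?_, ?_⟩
    · rw [hfw]
      congr 2
      rw [hδ]
      field_simp
    · refine hdw.trans ?_
      have h7 : (1 / (2 * L0)) ^ m = (1 / 2) ^ m * (1 / L0 ^ m) := by
        rw [one_div_pow, mul_pow, one_div_pow]
        field_simp
      rw [h7]
      have h8 : (N : ℝ) * (1 / L0 ^ m) ≤ 2 := by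
        rw [mul_one_div, div_le_iff₀ (by linarith)]
        linarith
      have h9 : 0 ≤ 2 * D0 * (1 / 2) ^ m := by positivity
      calc (N : ℝ) * (2 * D0 * ((1 / 2) ^ m * (1 / L0 ^ m)))
          = (2 * D0 * (1 / 2) ^ m) * ((N : ℝ) * (1 / L0 ^ m)) := by ring
        _ ≤ (2 * D0 * (1 / 2) ^ m) * 2 := mul_le_mul_of_nonneg_left h8 h9
        _ = 4 * D0 * (1 / 2) ^ m := by ring
  choose w hfw hdw using key
  have hlim : Tendsto w atTop (𝓝 x) := by
    rw [tendsto_iff_dist_tendsto_zero]
    refine squeeze_zero (fun m => dist_nonneg) hdw ?_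
    have := (tendsto_pow_atTop_nhds_zero_of_lt_one (r := (1 / 2 : ℝ)) (by norm_num)
      (by norm_num)).const_mul (4 * D0)
    rwa [mul_zero] at this
  have hcx : ContinuousAt f x := hf.continuousAt (hG.mem_nhds hxG)
  have h1 : Tendsto (fun m => f (w m)) atTop (𝓝 (f x)) := hcx.tendsto.comp hlim
  simp only [hfw] at h1
  have h2 := tendsto_nhds_unique h1 tendsto_const_nhds
  have h3 : (R / 8) • e = 0 := by
    have := h2.symm
    simpa using this
  have h4 : ‖(R / 8) • e‖ = R / 8 := by
    rw [norm_smul, he, mul_one, Real.norm_of_nonneg (by positivity)]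
  rw [h3, norm_zero] at h4
  linarith

end Pool.Agent.Helper897.NHM
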