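import Pool.Agent.Helper897.NHM.Stmts
open MeasureTheory Filter Topology Set Metric
open scoped ENNReal NNReal RealInnerProductSpace

/-!
More statements of the steps of part C (multiplicity bound) for MP_fecf7d_an.
-/

namespace Pool.Agent.Helper897.NHM

open Pool.Agent.Helper533
open Pool.Agent.Helper80.NHM (Normal IsOpenMapOn IsLightOn LocFin EnergyInput)

def AllTopA (n : ℕ) : Prop :=
  ∀ (G : Set (Sp n)) (f : Sp n → Sp n), IsOpen G → ContinuousOn f G → TopA G f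

def EnSum (n : ℕ) : Prop :=
  ∀ (S : Finset (Sp n)) (W : Set (Sp n)) (Wi : Sp n → Set (Sp n))
    (v : Sp n → ℝ) (V : Sp n → Sp n) (b : ℝ), (∀ i ∈ S, MeasurableSet (Wi i)) →
    (∀ i ∈ S, Wi i ⊆ W) → (S : Set (Sp n)).PairwiseDisjoint Wi →
    Integrable (fun x => ‖trG W v V (b + 1 / 4) (b + 3 / 4) x‖ ^ (n : ℝ)) →
    ∑ i ∈ S, En (Wi i) v V b ≤ En W v V b

def EnMono (n : ℕ) : Prop :=
  ∀ (W W' : Set (Sp n)) (v : Sp n → ℝ) (V : Sp n → Sp n) (b : ℝ), MeasurableSet W' →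
    W' ⊆ W → Integrable (fun x => ‖trG W v V (b + 1 / 4) (b + 3 / 4) x‖ ^ (n : ℝ)) →
    En W' v V b ≤ En W v V b

def EnInt (n : ℕ) : Prop :=
  ∀ (C1 L0 : ℝ) (Ast : Sp n → Sp n → Sp n) (G : Set (Sp n)) (f : Sp n → Sp n) (y0 : Sp n) (s : ℝ)
    (z : Sp n) (r : ℝ) (ω : Sp n → ℝ) (M : ℝ) (V : Sp n → Sp n) (b : ℝ), IsOpen G →
    ContinuousOn f G → RingPot C1 L0 Ast G f y0 s z r ω M V b → ∀ W : Set (Sp n), IsOpen W →
    IsCompact (closure W) → closure W ⊆ G ∩ f ⁻¹' ball y0 s →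
    (∀ x ∈ frontier W, L0 * r ≤ dist (f x) z) →
    Integrable (fun x => ‖trG W (fun x => ω (f x)) V (b + 1 / 4) (b + 3 / 4) x‖ ^ (n : ℝ))

/-- iterated shrinking under small energy -/
def LowIter (n : ℕ) : Prop :=
  ∀ (α β C1 L0 : ℝ), 0 < α → α ≤ β → 4 ≤ L0 → ∃ ε : ℝ, 0 < ε ∧
    ∀ (Ast : Sp n → Sp n → Sp n), Polar.Op (n : ℝ) α β volume Ast →
    ∀ (G : Set (Sp n)) (f : Sp n → Sp n) (y0 : Sp n) (s : ℝ), IsOpen G → ContinuousOn f G →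
      PotInput C1 L0 Ast G f y0 s →
    ∀ (x : Sp n) (R : ℝ) (ω : Sp n → ℝ) (M : ℝ) (V : Sp n → Sp n) (b : ℝ), x ∈ G →
      RingPot C1 L0 Ast G f y0 s (f x) R ω M V b → dist (f x) y0 + R ≤ s / 4 →
      Lam L0 * R ≤ s / 4 → IsCompact (closure (U G f (f x) (Lam L0 * R) x)) →
      closure (U G f (f x) (Lam L0 * R) x) ⊆ G ∩ f ⁻¹' ball y0 s →
      En (U G f (f x) (Lam L0 * R) x) (fun x => ω (f x)) V b < ε →
      ∀ D0 : ℝ, 0 < D0 → U G f (f x) (Lam L0 * R) x ⊆ closedBall x D0 →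
      ∀ z : Sp n, dist z (f x) ≤ R / 8 → ∀ x' ∈ U G f (f x) (Lam L0 * R) x, ∀ m : ℕ,
        dist (f x') z < R / 4 * (1 / L0) ^ m →
        U G f z (R / 4 * (1 / L0) ^ m) x' ⊆ closedBall x' (2 * D0 * (1 / (2 * L0)) ^ m)

/-- truncations in the local class -/
def TrLH (n : ℕ) : Prop :=
  ∀ (D : Set (Sp n)) (v : Sp n → ℝ) (V : Sp n → Sp n) (b c : ℝ), IsOpen D →
    Polar.LH (n : ℝ) volume D v V → b < c →
    Polar.LH (n : ℝ) volume D (fun x => min (max (v x - b) 0) (c - b))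
      ({x | b < v x ∧ v x ≤ c}.indicator V)

end Pool.Agent.Helper897.NHM
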