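import Pool.Agent.Helper897.NHM.Stmts
open MeasureTheory Filter Topology Set Metric
open scoped ENNReal NNReal RealInnerProductSpace

namespace Pool.Agent.Helper897.NHM

open Pool.Agent.Helper533
open Pool.Agent.Helper80.NHM (Normal IsOpenMapOn IsLightOn LocFin EnergyInput)

theorem topA {n : ℕ} {G : Set (Sp n)} {f : Sp n → Sp n} (hG : IsOpen G) (hf : ContinuousOn f G) :
    TopA G f := by
  have hF : ∀ z s, IsOpen (G ∩ f ⁻¹' ball z s) := fun z s =>
    hf.isOpen_inter_preimage hG isOpen_ball
  have hopen : ∀ z s x, IsOpen (U G f z s x) := fun z s x => (hF z s).connectedComponentIn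
  have hsub : ∀ z s x, U G f z s x ⊆ G ∩ f ⁻¹' ball z s := fun z s x =>
    connectedComponentIn_subset _ _
  have hmem : ∀ z s, ∀ x ∈ G, dist (f x) z < s → x ∈ U G f z s x := fun z s x hx hd =>
    mem_connectedComponentIn ⟨hx, hd⟩
  have hpre : ∀ z s x, IsPreconnected (U G f z s x) := fun z s x =>
    isPreconnected_connectedComponentIn
  have heq : ∀ z s x, ∀ x' ∈ U G f z s x, U G f z s x' = U G f z s x := fun z s x x' hx' =>
    (connectedComponentIn_eq hx').symm
  have hclos : ∀ z s x, closure (U G f z s x) ⊆ G → ∀ w ∈ closure (U G f z s x),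
      dist (f w) z ≤ s := by
    intro z s x hcl w hw
    have hcw : ContinuousAt f w := hf.continuousAt (hG.mem_nhds (hcl hw))
    have h1 : f w ∈ closure (f '' U G f z s x) := mem_closure_image hcw hw
    have h2 : closure (f '' U G f z s x) ⊆ closedBall z s := by
      refine closure_minimal ?_ isClosed_closedBall
      rintro _ ⟨y, hy, rfl⟩
      exact ball_subset_closedBall (hsub z s x hy).2
    exact h2 h1
  refine ⟨hopen, hsub, hmem, hpre, ?_, heq, hclos, ?_⟩
  · intro z s x z' s' x' hx' hb
    by_cases h : x' ∈ G ∩ f ⁻¹' ball z' s'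
    · have h1 : G ∩ f ⁻¹' ball z' s' ⊆ G ∩ f ⁻¹' ball z s :=
        inter_subset_inter_right _ (preimage_mono hb)
      rw [← heq z s x x' hx']
      exact connectedComponentIn_mono x' h1
    · unfold U
      rw [connectedComponentIn_eq_empty h]
      exact empty_subset _
  · intro z s x hcl w hw
    rw [(hopen z s x).frontier_eq] at hw
    refine le_antisymm (hclos z s x hcl w hw.1) ?_
    by_contra hc
    rw [not_le] at hc
    have hwF : w ∈ U G f z s w := hmem z s w (hcl hw.1) hc
    obtain ⟨y, hy1, hy2⟩ := mem_closure_iff.mp hw.1 _ (hopen z s w) hwF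
    apply hw.2
    have e1 := heq z s w y hy1
    have e2 := heq z s x y hy2
    rw [← e2, e1]
    exact hwF

end Pool.Agent.Helper897.NHM
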